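import Pool.Agent.Work.MP_636246_an.S.Per

/-!
The fixed point is a limit of saddle points.
-/

namespace Pool.Agent.Work.MP_636246_an.S

open Finset

theorem grow {b : ℝ} (hb0 : 0 ≤ b) (hb : b ≤ 1 / 100) {a V : ℕ → ℂ} {S : ℕ → ℝ} {n g : ℕ}
    (hV0 : V 0 = 0) (hV1 : V 1 = 1) (hrec : ∀ i, V (i + 2) = a (i + 1) * V (i + 1) - b * V i)
    (hS0 : 0 ≤ S 0) (hS : ∀ i, S i ≤ S (i + 1)) (hS1 : ∀ i, i ≤ n → S i ≤ 1 / 100)
    (ha : ∀ i, 1 + b - (S (i + 1) - S i) ≤ ‖a (i + 1)‖) (hg : 8 / 5 ≤ ‖a (g + 1)‖) (i : ℕ)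
    (hi : i ≤ n) : 0 ≤ S i ∧ ‖V i‖ ≤ 2 * ‖V (i + 1)‖ ∧
      (if i ≤ g then 1 else 3 / 2) * (1 - 2 * S i) ≤ ‖V (i + 1)‖ - b * ‖V i‖ := by
  induction i with
  | zero =>
    refine ⟨hS0, by simp [hV0], ?_⟩
    simp only [hV0, hV1, zero_le, if_true, zero_add, norm_one, norm_zero]
    linarith
  | succ i ih =>
    obtain ⟨h0, h1, h2⟩ := ih (by omega)
    have h3 : ‖a (i + 1)‖ * ‖V (i + 1)‖ - b * ‖V i‖ ≤ ‖V (i + 2)‖ := by
      rw [hrec, ← norm_mul, ← nb hb0, ← norm_mul, nb hb0]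
      exact norm_sub_norm_le _ _
    have h4 := mul_le_mul_of_nonneg_right (ha i) (norm_nonneg (V (i + 1)))
    have h5 := hS i
    have h6 := hS1 (i + 1) hi
    have h7 := mul_le_mul_of_nonneg_left h1 hb0
    have p1 := norm_nonneg (V (i + 1))
    have h8 := mul_le_mul_of_nonneg_right hb p1
    have h9 := mul_nonneg hb0 p1
    have h10 := mul_nonneg hb0 (norm_nonneg (V i))
    have h11 := mul_le_mul_of_nonneg_right (show S (i + 1) - S i ≤ 1 / 100 by linarith) p1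
    refine ⟨by linarith, by change _ ≤ 2 * ‖V (i + 2)‖; linarith, ?_⟩
    change _ ≤ ‖V (i + 2)‖ - _
    have h12 : (1 - 2 * (S (i + 1) - S i)) * (‖V (i + 1)‖ - b * ‖V i‖) ≤
        ‖V (i + 2)‖ - b * ‖V (i + 1)‖ := by
      have := mul_le_mul_of_nonneg_left
        (show ‖V (i + 1)‖ ≤ 2 * (‖V (i + 1)‖ - b * ‖V i‖) by linarith) (sub_nonneg.2 h5)
      linarith
    have h13 := mul_le_mul_of_nonneg_left h2 (show 0 ≤ 1 - 2 * (S (i + 1) - S i) by linarith)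
    have h14 := mul_nonneg h0 (sub_nonneg.2 h5)
    rcases lt_trichotomy i g with h | rfl | h
    · rw [if_pos h.le] at h13
      rw [if_pos (by omega)]
      linarith
    · rw [if_pos le_rfl] at h2
      rw [if_neg (by omega)]
      have := mul_le_mul_of_nonneg_right hg p1
      linarith
    · rw [if_neg (by omega)] at h13 ⊢
      linarith

theorem wron {b : ℝ} {a U V : ℕ → ℂ} (hU0 : U 0 = 1) (hV0 : V 0 = 0) (hV1 : V 1 = 1)
    (hU : ∀ i, U (i + 2) = a (i + 1) * U (i + 1) - b * U i)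
    (hV : ∀ i, V (i + 2) = a (i + 1) * V (i + 1) - b * V i) (i : ℕ) :
    U i * V (i + 1) - U (i + 1) * V i = (b : ℂ) ^ i := by
  induction i with
  | zero => simp [hU0, hV0, hV1]
  | succ i ih =>
    rw [hU, hV, pow_succ, ← ih]
    ring

theorem small_U {b : ℝ} (hb0 : 0 ≤ b) (hb : b ≤ 1 / 100) {U V : ℕ → ℂ} {n : ℕ} (hU1 : U 1 = 0)
    (hw : ∀ i, U i * V (i + 1) - U (i + 1) * V i = (b : ℂ) ^ i)
    (hV : ∀ i, i ≤ n → 9 / 10 ≤ ‖V (i + 1)‖) (i : ℕ) (hi : i ≤ n) :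
    ‖U (i + 1)‖ ≤ (1 - b ^ i) / 10 * ‖V (i + 1)‖ := by
  induction i with
  | zero => simp [hU1]
  | succ i ih =>
    have h1 := ih (by omega)
    have h2 := hV i (by omega)
    have h3 := hV (i + 1) hi
    have h4 : ‖U (i + 1 + 1)‖ * ‖V (i + 1)‖ ≤ ‖U (i + 1)‖ * ‖V (i + 1 + 1)‖ + b ^ (i + 1) := by
      rw [← norm_mul, ← norm_mul, show U (i + 1 + 1) * V (i + 1) =
        U (i + 1) * V (i + 1 + 1) - (b : ℂ) ^ (i + 1) by rw [← hw]; ring]
      refine (norm_sub_le _ _).trans ?_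
      rw [norm_pow, nb hb0]
    have h5 := mul_le_mul_of_nonneg_right h1 (norm_nonneg (V (i + 1 + 1)))
    have h6 : 81 / 100 ≤ ‖V (i + 1)‖ * ‖V (i + 1 + 1)‖ := by nlinarith
    have h7 : 0 ≤ b ^ i := by positivity
    have h8 := mul_le_mul_of_nonneg_right hb h7
    have h9 := mul_le_mul_of_nonneg_left h6 (show 0 ≤ b ^ i - b * b ^ i by linarith)
    refine le_of_mul_le_mul_right ?_ (show 0 < ‖V (i + 1)‖ by linarith)
    rw [pow_succ'] at h4 ⊢
    linarith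

theorem eig_of_root {L : ℂ × ℂ →L[ℂ] ℂ × ℂ} {p q r s l : ℂ}
    (hL : ∀ v, L v = (p * v.1 + q * v.2, r * v.1 + s * v.2)) (hq : q ≠ 0)
    (h : l ^ 2 - (p + s) * l + (p * s - r * q) = 0) : Module.End.HasEigenvalue L.toLinearMap l := by
  refine Module.End.hasEigenvalue_of_hasEigenvector (x := (q, l - p)) ⟨?_, ?_⟩
  · rw [Module.End.mem_eigenspace_iff]
    change L _ = _
    rw [hL]
    ext
    · simp only [Prod.smul_fst, smul_eq_mul]
      ring
    · simp only [Prod.smul_snd, smul_eq_mul]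
      linear_combination -h
  · exact fun h0 => hq (congrArg Prod.fst h0)

theorem two_eigs {L : ℂ × ℂ →L[ℂ] ℂ × ℂ} {p q r s : ℂ}
    (hL : ∀ v, L v = (p * v.1 + q * v.2, r * v.1 + s * v.2)) (hq : q ≠ 0)
    (h : 1 + ‖p * s - r * q‖ < ‖p + s‖) : ∃ l m : ℂ, 1 < ‖l‖ ∧ ‖m‖ < 1 ∧
      Module.End.HasEigenvalue L.toLinearMap l ∧ Module.End.HasEigenvalue L.toLinearMap m := by
  obtain ⟨c, hc⟩ := IsAlgClosed.exists_pow_nat_eq ((p + s) ^ 2 - 4 * (p * s - r * q)) two_pos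
  have e1 := eig_of_root (l := (p + s + c) / 2) hL hq (by linear_combination hc / 4)
  have e2 := eig_of_root (l := (p + s - c) / 2) hL hq (by linear_combination hc / 4)
  have h1 : ‖p + s‖ ≤ ‖(p + s + c) / 2‖ + ‖(p + s - c) / 2‖ :=
    (le_of_eq (by congr 1; ring)).trans (norm_add_le _ _)
  have h2 : ‖p * s - r * q‖ = ‖(p + s + c) / 2‖ * ‖(p + s - c) / 2‖ := by
    rw [← norm_mul]
    congr 1
    linear_combination hc / 4
  have h3 : (1 - ‖(p + s + c) / 2‖) * (1 - ‖(p + s - c) / 2‖) < 0 := by linarith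
  rcases mul_neg_iff.1 h3 with h4 | h4
  · exact ⟨_, _, by linarith [h4.2], by linarith [h4.1], e2, e1⟩
  · exact ⟨_, _, by linarith [h4.1], by linarith [h4.2], e1, e2⟩

theorem deriv_iter {b : ℝ} {y U V : ℕ → ℂ}
    (hy : ∀ j, y (j + 2) = y (j + 1) ^ 2 + (1 + b) * y (j + 1) - b * y j)
    (hU0 : U 0 = 1) (hU1 : U 1 = 0) (hV0 : V 0 = 0) (hV1 : V 1 = 1)
    (hU : ∀ i, U (i + 2) = (2 * y (i + 1) + 1 + b) * U (i + 1) - b * U i)
    (hV : ∀ i, V (i + 2) = (2 * y (i + 1) + 1 + b) * V (i + 1) - b * V i) (k : ℕ) :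
    (hen b)^[k] (y 0, y 1) = (y k, y (k + 1)) ∧ ∃ L : ℂ × ℂ →L[ℂ] ℂ × ℂ,
      HasFDerivAt (hen b)^[k] L (y 0, y 1) ∧
      ∀ v, L v = (U k * v.1 + V k * v.2, U (k + 1) * v.1 + V (k + 1) * v.2) := by
  induction k with
  | zero => exact ⟨rfl, _, hasFDerivAt_id _, fun v => by simp [hU0, hU1, hV0, hV1]⟩
  | succ k ih =>
    obtain ⟨h1, L, h2, h3⟩ := ih
    rw [Function.iterate_succ']
    refine ⟨?_, ?_⟩
    · rw [Function.comp_apply, h1, hen, hy]
    · have h4 := h2.snd.prodMk (((h2.snd.pow 2).add (h2.snd.const_mul (1 + (b : ℂ)))).sub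
        (h2.fst.const_mul (b : ℂ)))
      refine ⟨_, h4, fun v => ?_⟩
      simp [h1, h3, hU, hV]
      ring

theorem exists_rec (a : ℕ → ℂ) (b u v : ℂ) : ∃ U : ℕ → ℂ, U 0 = u ∧ U 1 = v ∧
    ∀ i, U (i + 2) = a (i + 1) * U (i + 1) - b * U i :=
  ⟨fun i => (Nat.rec (u, v) (fun k p => (p.2, a (k + 1) * p.2 - b * p.1)) i : ℂ × ℂ).1, rfl, rfl,
    fun _ => rfl⟩

theorem saddle_of {b : ℝ} (hb0 : 0 ≤ b) (hb : b ≤ 1 / 100) {y : ℕ → ℂ} {S : ℕ → ℝ} {n g : ℕ}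
    (hper : ∀ j, y (j + n) = y j)
    (hy : ∀ j, y (j + 2) = y (j + 1) ^ 2 + (1 + b) * y (j + 1) - b * y j)
    (hS0 : 0 ≤ S 0) (hS : ∀ i, S i ≤ S (i + 1)) (hS1 : ∀ i, i ≤ n → S i ≤ 1 / 100)
    (ha : ∀ i, 1 + b - (S (i + 1) - S i) ≤ ‖2 * y (i + 1) + 1 + (b : ℂ)‖)
    (hg : 8 / 5 ≤ ‖2 * y (g + 1) + 1 + (b : ℂ)‖) (hgn : g < n) :
    (y 0, y 1) ∈ saddles (hen b) n := by
  obtain ⟨U, hU0, hU1, hU⟩ := exists_rec (fun i => 2 * y i + 1 + b) b 1 0
  obtain ⟨V, hV0, hV1, hV⟩ := exists_rec (fun i => 2 * y i + 1 + b) b 0 1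
  obtain ⟨h1, L, h2, h3⟩ := deriv_iter hy hU0 hU1 hV0 hV1 hU hV n
  have hG := grow (a := fun i => 2 * y i + 1 + b) hb0 hb hV0 hV1 hV hS0 hS hS1 ha hg
  have hw := wron (a := fun i => 2 * y i + 1 + b) hU0 hV0 hV1 hU hV
  have h9 : ∀ i, i ≤ n → 9 / 10 ≤ ‖V (i + 1)‖ := fun i hi => by
    obtain ⟨-, -, h⟩ := hG i hi
    have := hS1 i hi
    have := mul_nonneg hb0 (norm_nonneg (V i))
    split_ifs at h <;> linarith
  obtain ⟨m, rfl⟩ : ∃ m, n = m + 1 := ⟨n - 1, by omega⟩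
  refine ⟨?_, ?_⟩
  · rw [h1, ← hper 0, ← hper 1, zero_add, add_comm 1 (m + 1)]
  · rw [h2.fderiv]
    have h4 := h9 m (by omega)
    refine two_eigs h3 (norm_pos_iff.1 (by linarith)) ?_
    obtain ⟨-, h5, h6⟩ := hG (m + 1) le_rfl
    rw [if_neg (by omega)] at h6
    have h7 := small_U hb0 hb hU1 hw h9 m (by omega)
    have h8 := hS1 (m + 1) le_rfl
    have h10 := mul_nonneg hb0 (norm_nonneg (V (m + 1)))
    have h11 : b ^ (m + 1) ≤ 1 / 100 :=
      (pow_le_of_le_one hb0 (by linarith) (by omega)).trans hb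
    have h12 := mul_nonneg (pow_nonneg hb0 m) (norm_nonneg (V (m + 1)))
    have h13 := norm_sub_le (U (m + 1) + V (m + 1 + 1)) (U (m + 1))
    rw [add_sub_cancel_left] at h13
    rw [hw, norm_pow, nb hb0]
    linarith

theorem zero_mem_closure {b : ℝ} (hb0 : 0 < b) (hb : b ≤ 1 / 10 ^ 9) :
    (0 : ℂ × ℂ) ∈ closure (⋃ n, saddles (hen b) n) := by
  refine Metric.mem_closure_iff.2 fun e he => ?_
  set θ := min (e / 2) 1 with hθ
  have hθ0 : 0 < θ := by positivity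
  have hθ1 : θ ≤ 1 := min_le_right _ _
  have hθe : θ < e := (min_le_left _ _).trans_lt (by linarith)
  clear_value θ
  have hd : 0 < 1 + b + θ ^ 2 / 4 := by positivity
  set l := (1 + b) / (1 + b + θ ^ 2 / 4) with hl
  have hl0 : 0 ≤ l := by positivity
  have hl1 : l < 1 := (div_lt_one hd).2 (by nlinarith)
  obtain ⟨p, hp⟩ := exists_pow_lt_of_lt_one (show 0 < θ ^ 2 / 10 by positivity)
    (show (1 / 2 : ℝ) < 1 by norm_num)
  obtain ⟨m, hm⟩ := exists_pow_lt_of_lt_one (show 0 < θ / 4 by positivity) hl1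
  obtain ⟨N, hN⟩ := exists_cycle hb0 hb
  obtain ⟨y, hper, hy, h4, hre, ha, hg⟩ := hN (N + p + 2 * m + 3) (by omega)
  set n := N + p + 2 * m + 3 with hn
  have hsm : ∀ j, p + m ≤ j → j + m ≤ n - 1 → ‖y j‖ ≤ θ := by
    intro j h1 h2
    refine (shrink_two (D := fun j => ‖y j‖) hl0 hl1.le hθ0.le h4 (fun j h1 h2 => ?_) m j h1 h2).trans
      (max_le le_rfl (by linarith))
    rcases le_total ‖y (j + 1)‖ θ with h3 | h3
    · exact Or.inl h3
    · refine Or.inr ?_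
      have h5 : (1 / 2 : ℝ) ^ (j + 1) ≤ (1 / 2) ^ p :=
        pow_le_pow_of_le_one (by norm_num) (by norm_num) (by omega)
      have h6 : 16 * b * (1 / 2) ^ (j + 1) ≤ (1 / 2) ^ (j + 1) :=
        mul_le_of_le_one_left (by positivity) (by linarith)
      have h7 := gain_norm hb0.le (by linarith) hθ0.le hθ1 (by linarith)
        (hre (j + 1) (by omega) (by omega)) h3
      have h8 : ‖y (j + 1)‖ * ‖y (j + 1) + 1 + (b : ℂ)‖ ≤ ‖y (j + 2)‖ + b * ‖y j‖ := by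
        rw [← norm_mul, show y (j + 1) * (y (j + 1) + 1 + (b : ℂ)) = y (j + 2) + b * y j by
          rw [hy]; ring]
        refine (norm_add_le _ _).trans ?_
        rw [norm_mul, nb hb0.le]
      have h9 := mul_le_mul_of_nonneg_left h7 (norm_nonneg (y (j + 1)))
      have h10 := mul_le_mul_of_nonneg_left (le_max_right ‖y (j + 2)‖ ‖y j‖) hb0.le
      have h11 := le_max_left ‖y (j + 2)‖ ‖y j‖
      rw [hl, div_mul_eq_mul_div, le_div_iff₀ hd]
      linarith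
  have hmod : ∀ j, y (j % n) = y j := Function.Periodic.map_mod_nat hper
  have hsad := saddle_of (y := fun i => y (p + m + i)) (n := n) (g := N + m + 1)
    (S := fun i => ∑ j ∈ range (p + m + i + 1), 32 * b * (1 / 2) ^ (j % n)) hb0.le (by linarith)
    (fun j => by rw [← add_assoc, hper]) (fun j => hy (p + m + j))
    (sum_nonneg fun _ _ => by positivity)
    (fun i => sum_le_sum_of_subset_of_nonneg (range_mono (by omega)) fun _ _ _ => by positivity)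
    (fun i hi => by
      refine (sum_le_sum_of_subset_of_nonneg (range_mono (show _ ≤ n + n by omega))
        fun _ _ _ => by positivity).trans ?_
      have e : ∑ j ∈ range n, 32 * b * (1 / 2 : ℝ) ^ (j % n) = 32 * b * ∑ j ∈ range n, (1 / 2) ^ j := by
        rw [mul_sum]
        exact sum_congr rfl fun j hj => by rw [Nat.mod_eq_of_lt (mem_range.1 hj)]
      have := mul_le_mul_of_nonneg_left (sum_geometric_two_le n) (show 0 ≤ 32 * b by positivity)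
      simp only [sum_range_add, Nat.add_mod_left, e]
      linarith)
    (fun i => by
      rw [show p + m + (i + 1) + 1 = p + m + i + 1 + 1 from rfl, sum_range_succ _ (p + m + i + 1),
        add_sub_cancel_left, ← hmod]
      exact ha _ (Nat.mod_lt _ (by omega)))
    (hg _ (by omega)) (by omega)
  refine ⟨_, Set.mem_iUnion.2 ⟨n, hsad⟩, ?_⟩
  rw [dist_zero_left, Prod.norm_mk]
  exact (max_le (hsm _ (by omega) (by omega)) (hsm _ (by omega) (by omega))).trans_lt hθe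

end Pool.Agent.Work.MP_636246_an.S
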