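import Pool.Agent.Work.MP_636246_an.Main

/-!
A calculus of sub-probability vectors on words that dominate a weight on a set of points.
-/

open MeasureTheory Filter

namespace Pool.Agent.Work.MP_636246_an.S

/-- Some sub-probability vector on the finite set of words dominates `W` on `S`. -/
def Cov {X A : Type} [Fintype A] (it : X → A) (S : Set X) (W : X → ℝ) : Prop :=
  ∃ q : A → ℝ, (∀ w, 0 ≤ q w) ∧ ∑ w, q w ≤ 1 ∧ ∀ x ∈ S, W x ≤ q (it x)

variable {X A : Type} [Fintype A] {it : X → A}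

theorem Cov.mono {S : Set X} {W W' : X → ℝ} (h : Cov it S W) (hW : ∀ x ∈ S, W' x ≤ W x) :
    Cov it S W' := by
  obtain ⟨q, h0, h1, h2⟩ := h
  exact ⟨q, h0, h1, fun x hx => (hW x hx).trans (h2 x hx)⟩

theorem cov_empty {S : Set X} (hS : ¬ S.Nonempty) (W : X → ℝ) : Cov it S W :=
  ⟨fun _ => 0, fun _ => le_rfl, by simp, fun x hx => absurd ⟨x, hx⟩ hS⟩

theorem cov_mix {ι : Type} (I : Finset ι) (p : ι → ℝ) (hp : ∀ a ∈ I, 0 ≤ p a)
    (hp1 : ∑ a ∈ I, p a ≤ 1) (T : ι → Set X) (V : ι → X → ℝ) (hT : ∀ a ∈ I, Cov it (T a) (V a))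
    {S : Set X} {W : X → ℝ} (h : ∀ x ∈ S, ∃ a ∈ I, x ∈ T a ∧ W x ≤ p a * V a x) : Cov it S W := by
  classical
  choose! q h0 h1 h2 using hT
  refine ⟨fun w => ∑ a ∈ I, p a * q a w,
    fun w => Finset.sum_nonneg fun a ha => mul_nonneg (hp a ha) (h0 a ha w), ?_, ?_⟩
  · rw [Finset.sum_comm]
    refine le_trans (Finset.sum_le_sum fun a ha => ?_) hp1
    rw [← Finset.mul_sum]
    exact mul_le_of_le_one_right (hp a ha) (h1 a ha)
  · intro x hx
    obtain ⟨a, ha, hxa, hW⟩ := h x hx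
    refine (hW.trans (mul_le_mul_of_nonneg_left (h2 a ha x hxa) (hp a ha))).trans ?_
    exact Finset.single_le_sum (f := fun a => p a * q a (it x))
      (fun a ha => mul_nonneg (hp a ha) (h0 a ha _)) ha

theorem cov_two {p₁ p₂ : ℝ} (h₁ : 0 ≤ p₁) (h₂ : 0 ≤ p₂) (h12 : p₁ + p₂ ≤ 1) {T₁ T₂ S : Set X}
    {V₁ V₂ W : X → ℝ} (c₁ : Cov it T₁ V₁) (c₂ : Cov it T₂ V₂)
    (h : ∀ x ∈ S, (x ∈ T₁ ∧ W x ≤ p₁ * V₁ x) ∨ (x ∈ T₂ ∧ W x ≤ p₂ * V₂ x)) : Cov it S W := by
  obtain ⟨q₁, a0, a1, a2⟩ := c₁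
  obtain ⟨q₂, b0, b1, b2⟩ := c₂
  refine ⟨fun w => p₁ * q₁ w + p₂ * q₂ w,
    fun w => add_nonneg (mul_nonneg h₁ (a0 w)) (mul_nonneg h₂ (b0 w)), ?_, ?_⟩
  · rw [Finset.sum_add_distrib, ← Finset.mul_sum, ← Finset.mul_sum]
    exact (add_le_add (mul_le_of_le_one_right h₁ a1) (mul_le_of_le_one_right h₂ b1)).trans h12
  · intro x hx
    rcases h x hx with ⟨h3, h4⟩ | ⟨h3, h4⟩
    · exact (h4.trans (mul_le_mul_of_nonneg_left (a2 x h3) h₁)).trans
        (le_add_of_nonneg_right (mul_nonneg h₂ (b0 _)))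
    · exact (h4.trans (mul_le_mul_of_nonneg_left (b2 x h3) h₂)).trans
        (le_add_of_nonneg_left (mul_nonneg h₁ (a0 _)))

theorem sum_tele (L : ℕ) : ∑ o ∈ Finset.range L, (1 : ℝ) / ((o + 1) * (o + 2)) = 1 - 1 / (L + 1) := by
  induction L with
  | zero => simp
  | succ L ih =>
    rw [Finset.sum_range_succ, ih]
    push_cast
    field_simp
    ring

/-- Splitting a set according to the offset of a real coordinate. -/
theorem cov_off {S : Set X} {g R W : X → ℝ} {δ B : ℝ} (hδ : 0 < δ) (hB : ∀ x ∈ S, |g x| ≤ B)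
    (hR : ∀ x ∈ S, ∀ x' ∈ S, |g x - g x'| ≤ δ * R x) (hW : ∀ x ∈ S, 0 ≤ W x)
    (h : ∀ S' ⊆ S, (∀ x ∈ S', ∀ x' ∈ S', |g x - g x'| ≤ δ) → Cov it S' W) :
    Cov it S fun x => W x / (R x + 2) ^ 2 := by
  by_cases hS : S.Nonempty
  swap
  · exact cov_empty hS _
  have hbd : BddBelow (g '' S) := ⟨-B, by
    rintro _ ⟨x, hx, rfl⟩
    exact (abs_le.1 (hB x hx)).1⟩
  set g0 := sInf (g '' S) with hg0
  have h1 : ∀ x ∈ S, g0 ≤ g x := fun x hx => csInf_le hbd ⟨x, hx, rfl⟩
  have h2 : ∀ x ∈ S, g x - δ * R x ≤ g0 := fun x hx => le_csInf (hS.image g) (by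
    rintro _ ⟨x', hx', rfl⟩
    linarith [(abs_le.1 (hR x hx x' hx')).2])
  have h3 : -B ≤ g0 := le_csInf (hS.image g) (by
    rintro _ ⟨x, hx, rfl⟩
    exact (abs_le.1 (hB x hx)).1)
  refine cov_mix (Finset.range (⌊2 * B / δ⌋₊ + 1)) (fun o => 1 / ((o + 1) * (o + 2)))
    (fun o _ => by positivity) ?_ (fun o => {x | x ∈ S ∧ ⌊(g x - g0) / δ⌋₊ = o}) (fun _ => W) ?_ ?_
  · rw [sum_tele]
    have : (0 : ℝ) ≤ 1 / (((⌊2 * B / δ⌋₊ + 1 : ℕ) : ℝ) + 1) := by positivity
    linarith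
  · intro o _
    refine h _ (fun x hx => hx.1) fun x hx x' hx' => ?_
    have a1 : 0 ≤ (g x - g0) / δ := div_nonneg (sub_nonneg.2 (h1 x hx.1)) hδ.le
    have a2 : 0 ≤ (g x' - g0) / δ := div_nonneg (sub_nonneg.2 (h1 x' hx'.1)) hδ.le
    have b1 := Nat.floor_le a1
    have b2 := Nat.lt_floor_add_one ((g x - g0) / δ)
    have b3 := Nat.floor_le a2
    have b4 := Nat.lt_floor_add_one ((g x' - g0) / δ)
    rw [hx.2] at b1 b2
    rw [hx'.2] at b3 b4
    rw [le_div_iff₀ hδ] at b1 b3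
    rw [div_lt_iff₀ hδ] at b2 b4
    rw [abs_le]
    constructor <;> nlinarith
  · intro x hx
    have a1 : 0 ≤ (g x - g0) / δ := div_nonneg (sub_nonneg.2 (h1 x hx)) hδ.le
    refine ⟨⌊(g x - g0) / δ⌋₊, Finset.mem_range.2 (Nat.lt_succ_of_le (Nat.floor_le_floor ?_)),
      ⟨hx, rfl⟩, ?_⟩
    · exact div_le_div_of_nonneg_right (by linarith [(abs_le.1 (hB x hx)).2]) hδ.le
    · have b1 := Nat.floor_le a1
      have b2 : (g x - g0) / δ ≤ R x := by
        rw [div_le_iff₀ hδ]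
        linarith [h2 x hx]
      have b3 : (0 : ℝ) ≤ ⌊(g x - g0) / δ⌋₊ := Nat.cast_nonneg _
      rw [one_div, mul_comm, ← div_eq_mul_inv]
      refine div_le_div_of_nonneg_left (hW x hx) (by positivity) ?_
      nlinarith

/-- Splitting a set according to the offset of a complex coordinate. -/
theorem cov_off2 {S : Set X} {g : X → ℂ} {R W : X → ℝ} {δ B : ℝ} (hδ : 0 < δ)
    (hB : ∀ x ∈ S, ‖g x‖ ≤ B)
    (hR : ∀ x ∈ S, ∀ x' ∈ S, ‖g x - g x'‖ ≤ δ * R x) (hW : ∀ x ∈ S, 0 ≤ W x)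
    (h : ∀ S' ⊆ S, (∀ x ∈ S', ∀ x' ∈ S', ‖g x - g x'‖ ≤ 2 * δ) → Cov it S' W) :
    Cov it S fun x => W x / (R x + 2) ^ 4 := by
  have key : Cov it S fun x => (W x / (R x + 2) ^ 2) / (R x + 2) ^ 2 := by
    refine cov_off (g := fun x => (g x).re) hδ
      (fun x hx => (Complex.abs_re_le_norm _).trans (hB x hx))
      (fun x hx x' hx' => ?_) (fun x hx => div_nonneg (hW x hx) (by positivity)) fun S₁ h₁ hre => ?_
    · rw [← Complex.sub_re]
      exact (Complex.abs_re_le_norm _).trans (hR x hx x' hx')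
    refine cov_off (g := fun x => (g x).im) hδ
      (fun x hx => (Complex.abs_im_le_norm _).trans (hB x (h₁ hx)))
      (fun x hx x' hx' => ?_) (fun x hx => hW x (h₁ hx)) fun S₂ h₂ him => ?_
    · rw [← Complex.sub_im]
      exact (Complex.abs_im_le_norm _).trans (hR x (h₁ hx) x' (h₁ hx'))
    refine h S₂ (h₂.trans h₁) fun x hx x' hx' => ?_
    refine (Complex.norm_le_abs_re_add_abs_im _).trans ?_
    rw [Complex.sub_re, Complex.sub_im]
    linarith [hre x (h₂ hx) x' (h₂ hx'), him x hx x' hx']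
  refine key.mono fun x _ => le_of_eq ?_
  rw [div_div, ← pow_add]

/-- The probability given to the observed letter. -/
noncomputable def lett {Y : Type} (K : Set Y) (τ : ℝ) (k : ℕ) (z : Y) : ℝ := by
  classical exact if z ∈ K then 1 - τ else τ / k

/-- Words read along orbits that stay close to each other after time `m`. -/
theorem cov_base {Y : Type} {k n m : ℕ} (ξ : Y → Fin k) (o : X → ℕ → Y) (K : Set Y) {τ : ℝ}
    (h0 : 0 < τ) (h1 : τ < 1) {S : Set X}
    (h : ∀ x ∈ S, ∀ x' ∈ S, ∀ j, m ≤ j → j < n → o x j ∈ K → o x' j ∈ K → ξ (o x j) = ξ (o x' j)) :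
    Cov (fun x (j : Fin n) => ξ (o x j)) S
      fun x => (1 / k : ℝ) ^ m * ∏ j ∈ Finset.range n, lett K τ k (o x j) := by
  classical
  by_cases hS : S.Nonempty
  swap
  · exact cov_empty hS _
  obtain ⟨x₀, -⟩ := hS
  have hk : (0 : ℝ) < k := by exact_mod_cast (ξ (o x₀ 0)).pos
  have hk1 : (1 : ℝ) ≤ k := by exact_mod_cast (ξ (o x₀ 0)).pos
  have hl : ∀ j : ℕ, ∃ a : Fin k, m ≤ j → j < n → ∀ x ∈ S, o x j ∈ K → ξ (o x j) = a := by
    intro j
    by_cases hj : ∃ x ∈ S, o x j ∈ K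
    · obtain ⟨x', hx', hK⟩ := hj
      exact ⟨ξ (o x' j), fun h2 h3 x hx hxK => h x hx x' hx' j h2 h3 hxK hK⟩
    · exact ⟨ξ (o x₀ 0), fun _ _ x hx hxK => absurd ⟨x, hx, hxK⟩ hj⟩
  choose l hl using hl
  let Q : ℕ → Fin k → ℝ := fun j a =>
    if j < m then 1 / k else (if a = l j then 1 - τ else 0) + τ / k
  have hQ0 : ∀ j a, 0 ≤ Q j a := by
    intro j a
    simp only [Q]
    split_ifs
    · positivity
    · exact add_nonneg (by linarith) (by positivity)
    · positivity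
  have hQ1 : ∀ j, ∑ a, Q j a = 1 := by
    intro j
    simp only [Q]
    split_ifs
    · simp only [Finset.sum_const, Finset.card_univ, Fintype.card_fin, nsmul_eq_mul]
      field_simp
    · rw [Finset.sum_add_distrib]
      simp only [Finset.sum_ite_eq', Finset.mem_univ, if_true, Finset.sum_const, Finset.card_univ,
        Fintype.card_fin, nsmul_eq_mul]
      field_simp
      ring
  have hl0 : ∀ z, 0 ≤ lett K τ k z := by
    intro z
    unfold lett
    split_ifs
    · linarith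
    · positivity
  have hl1 : ∀ z, lett K τ k z ≤ 1 := by
    intro z
    unfold lett
    split_ifs
    · linarith
    · rw [div_le_one hk]
      linarith
  refine ⟨fun w => ∏ j : Fin n, Q j (w j), fun w => Finset.prod_nonneg fun j _ => hQ0 _ _, ?_, ?_⟩
  · rw [← Fintype.piFinset_univ, ← Finset.prod_univ_sum (fun _ : Fin n => Finset.univ)
      fun j a => Q j a]
    simp [hQ1]
  · intro x hx
    have e : ∏ j : Fin n, Q j (ξ (o x j)) = ∏ j ∈ Finset.range n, Q j (ξ (o x j)) :=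
      Fin.prod_univ_eq_prod_range (fun j => Q j (ξ (o x j))) n
    change _ ≤ ∏ j : Fin n, Q j (ξ (o x j))
    rw [e]
    have h2 : (1 / k : ℝ) ^ m ≤ ∏ j ∈ Finset.range n, (if j < m then (1 / k : ℝ) else 1) := by
      rw [Finset.prod_ite, Finset.prod_const_one, mul_one, Finset.prod_const]
      refine pow_le_pow_of_le_one (by positivity) (by rw [div_le_one hk]; exact hk1) ?_
      calc _ ≤ (Finset.range m).card := Finset.card_le_card fun j hj =>
            Finset.mem_range.2 (Finset.mem_filter.1 hj).2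
        _ = m := Finset.card_range m
    refine (mul_le_mul_of_nonneg_right h2 (Finset.prod_nonneg fun j _ => hl0 _)).trans ?_
    rw [← Finset.prod_mul_distrib]
    refine Finset.prod_le_prod (fun j _ => mul_nonneg (by split_ifs <;> positivity) (hl0 _))
      fun j hj => ?_
    simp only [Q]
    by_cases hjm : j < m
    · rw [if_pos hjm, if_pos hjm]
      exact mul_le_of_le_one_right (by positivity) (hl1 _)
    · rw [if_neg hjm, if_neg hjm, one_mul]
      unfold lett
      by_cases hK : o x j ∈ K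
      · rw [if_pos hK, if_pos (hl j (not_lt.1 hjm) (Finset.mem_range.1 hj) x hx hK)]
        have : 0 ≤ τ / k := by positivity
        linarith
      · rw [if_neg hK]
        split_ifs <;> linarith

/-- The Gibbs inequality for a dominating vector. -/
theorem blockEntropy_le_of_cov {X : Type} [MeasurableSpace X] {f : X → X} {ν : Measure X}
    [IsProbabilityMeasure ν] (hf : Measurable f) {k : ℕ} {ξ : X → Fin k}
    (hξ : Measurable ξ) (n : ℕ) {S : Set X} (hS : ∀ᵐ x ∂ν, x ∈ S) {U : X → ℝ}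
    (hU : Integrable U ν)
    (h : Cov (fun x (j : Fin n) => ξ (f^[j] x)) S fun x => Real.exp (-U x)) :
    blockEntropy f ν ξ n ≤ ∫ x, U x ∂ν := by
  classical
  obtain ⟨q, hq0, hq1, hq⟩ := h
  set it : X → Fin n → Fin k := fun x j => ξ (f^[j] x) with hit
  have hitm : Measurable it := measurable_pi_lambda _ fun j => hξ.comp (hf.iterate j)
  have hlow : ∀ᵐ x ∂ν, Real.exp (-U x) ≤ q (it x) := hS.mono fun x hx => hq x hx
  have hset : ∀ w : Fin n → Fin k, {x | ∀ j : Fin n, ξ (f^[j] x) = w j} = it ⁻¹' {w} := by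
    intro w
    ext x
    simp [hit, funext_iff]
  have hp1 : ∑ w : Fin n → Fin k, ν.real (it ⁻¹' {w}) = 1 := by
    rw [sum_measureReal_preimage_singleton Finset.univ fun w _ => hitm (measurableSet_singleton w)]
    simp
  have hpq : ∀ w, 0 < ν.real (it ⁻¹' {w}) → 0 < q w := by
    intro w hw
    by_contra h
    have h0 : ν (it ⁻¹' {w}) = 0 := by
      refine measure_mono_null ?_ (ae_iff.1 hlow)
      intro x hx h2
      have h1 : it x = w := hx
      rw [h1] at h2
      exact h (lt_of_lt_of_le (by positivity) h2)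
    simp [Measure.real, h0] at hw
  have hg := gibbs (fun w => ν.real (it ⁻¹' {w})) q (fun w => measureReal_nonneg) hq0 hpq hp1 hq1
  have hint : ∑ w, ν.real (it ⁻¹' {w}) * (-Real.log (q w)) = ∫ x, -Real.log (q (it x)) ∂ν := by
    rw [← integral_map (f := fun w => -Real.log (q w)) hitm.aemeasurable
      (measurable_of_finite _).aestronglyMeasurable, integral_fintype Integrable.of_finite]
    refine Finset.sum_congr rfl fun w _ => ?_
    rw [map_measureReal_apply hitm (measurableSet_singleton w), smul_eq_mul]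
  have hint2 : ∫ x, -Real.log (q (it x)) ∂ν ≤ ∫ x, U x ∂ν := by
    refine integral_mono_ae ?_ hU ?_
    · exact (integrable_map_measure (g := fun w => -Real.log (q w))
        (measurable_of_finite _).aestronglyMeasurable hitm.aemeasurable).1 Integrable.of_finite
    · filter_upwards [hlow] with x hx
      have := Real.log_le_log (by positivity) hx
      rw [Real.log_exp] at this
      linarith only [this]
  unfold blockEntropy
  simp only [hset]
  linarith

end Pool.Agent.Work.MP_636246_an.S
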