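import Pool.Agent.Work.MP_636246_an.S.Dyn

/-!
Periodic points of the maps `hen b`.
-/

open MeasureTheory Filter Topology

namespace Pool.Agent.Work.MP_636246_an.S

/-- An adapted norm. -/
noncomputable def nr (b : ℝ) (z : ℂ × ℂ) : ℝ := max ‖z.2 - b * z.1‖ ‖z.2 - z.1‖

theorem nr_pos {b : ℝ} (hb1 : b ≤ 1 / 100) {z : ℂ × ℂ} (hz : z ≠ 0) : 0 < nr b z := by
  by_contra h
  have h1 : z.2 - b * z.1 = 0 := norm_le_zero_iff.1 ((le_max_left _ _).trans (not_lt.1 h))
  have h2 : z.2 - z.1 = 0 := norm_le_zero_iff.1 ((le_max_right _ _).trans (not_lt.1 h))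
  have h3 : ((1 - b : ℝ) : ℂ) * z.1 = 0 := by
    push_cast
    linear_combination h1 - h2
  have h4 : ((1 - b : ℝ) : ℂ) ≠ 0 := Complex.ofReal_ne_zero.2 (by linarith)
  have h5 : z.1 = 0 := (mul_eq_zero.1 h3).resolve_left h4
  refine hz (Prod.ext h5 ?_)
  rw [h5, sub_zero] at h2
  exact h2

/-- The derivative at the origin. -/
noncomputable def dz' (b : ℝ) : ℂ × ℂ →L[ℂ] ℂ × ℂ :=
  (ContinuousLinearMap.snd ℂ ℂ ℂ).prod
    ((1 + b : ℂ) • ContinuousLinearMap.snd ℂ ℂ ℂ - (b : ℂ) • ContinuousLinearMap.fst ℂ ℂ ℂ)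

theorem dz'_apply (b : ℝ) (v : ℂ × ℂ) : dz' b v = (v.2, (1 + b : ℂ) * v.2 - (b : ℂ) * v.1) := rfl

theorem hasFDerivAt_hen (b : ℝ) : HasFDerivAt (hen b) (dz' b) 0 := by
  have h1 : HasFDerivAt (fun z : ℂ × ℂ => z.2) (ContinuousLinearMap.snd ℂ ℂ ℂ) 0 := hasFDerivAt_snd
  have h2 : HasFDerivAt (fun z : ℂ × ℂ => z.1) (ContinuousLinearMap.fst ℂ ℂ ℂ) 0 := hasFDerivAt_fst
  have h3 := h1.prodMk (((h1.pow 2).add (h1.const_mul (1 + b : ℂ))).sub (h2.const_mul (b : ℂ)))
  refine HasFDerivAt.congr_fderiv h3 ?_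
  ext <;> simp [dz']

theorem nr_smul (b : ℝ) (l : ℂ) (v : ℂ × ℂ) : nr b (l • v) = ‖l‖ * nr b v := by
  simp only [nr, Prod.smul_fst, Prod.smul_snd, smul_eq_mul]
  rw [mul_max_of_nonneg _ _ (norm_nonneg l), ← norm_mul, ← norm_mul]
  congr 2 <;> ring

variable {b : ℝ} (hb0 : 0 < b) (hb1 : b ≤ 1 / 100)
include hb0 hb1

theorem nr_dz (v : ℂ × ℂ) : nr b (dz' b v) ≤ nr b v := by
  have h1 : ‖v.2 - b * v.1‖ ≤ nr b v := le_max_left _ _
  have h2 : ‖v.2 - v.1‖ ≤ nr b v := le_max_right _ _
  rw [dz'_apply]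
  refine max_le ?_ ?_
  · have e : (1 + b : ℂ) * v.2 - (b : ℂ) * v.1 - b * v.2 = v.2 - b * v.1 := by ring
    simp only [e]
    exact h1
  · have e : (1 + b : ℂ) * v.2 - (b : ℂ) * v.1 - v.2 = b * (v.2 - v.1) := by ring
    simp only [e, norm_mul, nb hb0.le]
    nlinarith [norm_nonneg (v.2 - v.1)]

theorem nr_dz_pow (n : ℕ) (v : ℂ × ℂ) : nr b ((dz' b ^ n) v) ≤ nr b v := by
  induction n with
  | zero => exact le_rfl
  | succ n ih =>
    rw [pow_succ']
    exact (nr_dz hb0 hb1 _).trans ih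

theorem zero_not_saddle' (n : ℕ) : (0 : ℂ × ℂ) ∉ saddles (hen b) n := by
  rintro ⟨-, l, m, hl, -, hev, -⟩
  rw [((hasFDerivAt_hen b).iterate (hen_zero b) n).fderiv] at hev
  obtain ⟨v, hv⟩ := hev.exists_hasEigenvector
  have h1 : (dz' b ^ n) v = l • v := hv.apply_eq_smul
  have h2 := nr_dz_pow hb0 hb1 n v
  rw [h1, nr_smul] at h2
  have h3 : 0 < nr b v := nr_pos hb1 hv.2
  nlinarith

/-- There is no small non-zero periodic solution of the recurrence. -/
theorem no_small_cycle' (y : ℕ → ℂ) {n : ℕ} (hn : 0 < n) (hper : ∀ j, y (j + n) = y j)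
    (hrec : ∀ j, y (j + 2) = y (j + 1) ^ 2 + (1 + b) * y (j + 1) - b * y j)
    (hsm : ∀ j, ‖y j‖ ≤ 1 / 8) (j : ℕ) : y j = 0 := by
  have hmod : ∀ j, y (j % n) = y j := by
    intro j
    have : ∀ q r, y (r + q * n) = y r := by
      intro q r
      induction q with
      | zero => simp
      | succ q ih => rw [Nat.succ_mul, ← add_assoc, hper, ih]
    conv_rhs => rw [← Nat.mod_add_div' j n]
    exact (this _ _).symm
  obtain ⟨i, -, hi⟩ := Finset.exists_max_image (Finset.range n) (fun j => ‖y j‖) ⟨0, by simpa⟩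
  have hmax : ∀ j, ‖y j‖ ≤ ‖y i‖ := fun j => by
    rw [← hmod j]
    exact hi _ (Finset.mem_range.2 (Nat.mod_lt j hn))
  by_contra hj
  have hi0 : y i ≠ 0 := fun h => hj (norm_le_zero_iff.1 (by simpa [h] using hmax j))
  obtain ⟨i₀, hi₀⟩ : ∃ i₀, i + n = i₀ + 1 := ⟨i + n - 1, by omega⟩
  have hyi : y (i₀ + 1) = y i := by rw [← hi₀, hper]
  have hdiff : ∀ j, ‖y (j + 2) - y (j + 1)‖ ≤ ‖y (j + 1)‖ / 8 + ‖y (j + 1) - y j‖ / 8 := by
    intro j
    have e : y (j + 2) - y (j + 1) = y (j + 1) * y (j + 1) + b * (y (j + 1) - y j) := by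
      rw [hrec]
      ring
    rw [e]
    refine (norm_add_le _ _).trans ?_
    rw [norm_mul, norm_mul, nb hb0.le]
    nlinarith [hsm (j + 1), norm_nonneg (y (j + 1)), norm_nonneg (y (j + 1) - y j)]
  have hinv : ∀ t, y (i₀ + 1 + t) ≠ 0 ∧
      ‖y (i₀ + 1 + t + 1) - y (i₀ + 1 + t)‖ ≤ 3 / 8 * ‖y (i₀ + 1 + t)‖ := by
    intro t
    induction t with
    | zero =>
      refine ⟨by rwa [add_zero, hyi], ?_⟩
      have h1 := hdiff i₀
      have h2 := norm_sub_le (y (i₀ + 1)) (y i₀)
      have h3 := hmax i₀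
      rw [← hyi] at h3
      simp only [add_zero]
      linarith only [h1, h2, h3]
    | succ t ih =>
      have h1 := hdiff (i₀ + 1 + t)
      have h2 := norm_sub_norm_le (y (i₀ + 1 + t)) (y (i₀ + 1 + t + 1))
      rw [norm_sub_rev] at h2
      have h3 := norm_pos_iff.2 ih.1
      rw [← add_assoc]
      exact ⟨norm_pos_iff.1 (by linarith only [ih, h2, h3, ih.2]),
        by linarith only [ih, h1, h2, h3, ih.2]⟩
  let a : ℕ → ℝ := fun t => (-(y (i₀ + 1 + t + 1) - b * y (i₀ + 1 + t))⁻¹).re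
  have hmono : StrictMono a := by
    refine strictMono_nat_of_lt_succ fun t => ?_
    obtain ⟨h1, h2⟩ := hinv t
    obtain ⟨h3, h4⟩ := hinv (t + 1)
    rw [← add_assoc] at h3 h4
    have hr := hrec (i₀ + 1 + t)
    simp only [a]
    rw [← add_assoc]
    set y0 := y (i₀ + 1 + t)
    set y1 := y (i₀ + 1 + t + 1)
    set y2 := y (i₀ + 1 + t + 1 + 1)
    have hy1 : 0 < ‖y1‖ := norm_pos_iff.2 h3
    have h5 : ‖y0‖ ≤ 8 / 5 * ‖y1‖ := by
      have := norm_sub_norm_le y0 y1
      rw [norm_sub_rev] at this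
      linarith only [h2, this]
    set e1 := (y2 - y1) / y1 - b with he1
    set e2 := -b * y0 / y1 with he2
    have hn1 : ‖e1‖ ≤ 1 / 2 := by
      have h6 : ‖(y2 - y1) / y1‖ ≤ 3 / 8 := by
        rw [norm_div, div_le_iff₀ hy1]
        exact h4
      have h7 := norm_sub_le ((y2 - y1) / y1) b
      rw [nb hb0.le] at h7
      linarith
    have hn2 : ‖e2‖ ≤ 1 / 5 := by
      rw [he2, norm_div, div_le_iff₀ hy1, norm_mul, norm_neg, nb hb0.le]
      nlinarith [norm_nonneg y0]
    have hv1 : y2 - b * y1 = y1 * (1 + e1) := by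
      rw [he1]
      field_simp
      ring
    have hv0 : y1 - b * y0 = y1 * (1 + e2) := by
      rw [he2]
      field_simp
      ring
    have hre : 0 < ((1 + e1) * (1 + e2)).re := by
      have e : (1 + e1) * (1 + e2) = 1 + (e1 + e2 + e1 * e2) := by ring
      have hb : ‖e1 + e2 + e1 * e2‖ ≤ 4 / 5 := by
        refine (norm_add₃_le).trans ?_
        rw [norm_mul]
        nlinarith [norm_nonneg e1, norm_nonneg e2]
      have := (abs_le.1 ((Complex.abs_re_le_norm _).trans hb)).1
      rw [e, Complex.add_re, Complex.one_re]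
      linarith only [this]
    have hne : (1 + e1) * (1 + e2) ≠ 0 := fun h => by simp [h] at hre
    have hA : (1 + e1) ≠ 0 := left_ne_zero_of_mul hne
    have hB : (1 + e2) ≠ 0 := right_ne_zero_of_mul hne
    have hsq : y1 * (1 + e1) - y1 * (1 + e2) = y1 ^ 2 := by
      rw [← hv1, ← hv0, hr]
      ring
    have hid : -(y2 - b * y1)⁻¹ = -(y1 - b * y0)⁻¹ + ((1 + e1) * (1 + e2))⁻¹ := by
      rw [hv1, hv0]
      set A := 1 + e1
      set B := 1 + e2
      have : A - B = y1 := by
        have h := hsq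
        rw [← mul_sub, sq] at h
        exact mul_left_cancel₀ h3 h
      field_simp
      rw [← this]
      ring
    rw [hid, Complex.add_re, Complex.inv_re]
    have := div_pos hre (Complex.normSq_pos.2 hne)
    linarith only [this]
  have h1 : a 0 < a n := hmono hn
  have h2 : a n = a 0 := by
    simp only [a, add_zero]
    rw [show i₀ + 1 + n + 1 = (i₀ + 1 + 1) + n by ring, hper, hper]
  exact h1.ne' h2

theorem saddle_far' {n : ℕ} (hn : 0 < n) {z : ℂ × ℂ} (hz : z ∈ saddles (hen b) n) :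
    ∃ j < n, 1 / 8 < ‖((hen b)^[j] z).2‖ := by
  by_contra h1
  push Not at h1
  have hper : ∀ j, (hen b)^[j + n] z = (hen b)^[j] z := fun j => by
    rw [Function.iterate_add_apply, hz.1]
  have h2 : ∀ j, ‖((hen b)^[j] z).2‖ ≤ 1 / 8 := by
    intro j
    induction j using Nat.strong_induction_on with
    | _ j ih =>
      by_cases hj : j < n
      · exact h1 j hj
      · have := ih (j - n) (by omega)
        rwa [← hper, show j - n + n = j by omega] at this
  have h3 := no_small_cycle' hb0 hb1 (fun j => ((hen b)^[j] z).2) hn (fun j => by simp only [hper])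
    (fun j => by
      simp only [show j + 2 = (j + 1) + 1 from rfl, Function.iterate_succ_apply', hen]) h2
  have h4 : z = 0 := by
    obtain ⟨m, rfl⟩ := Nat.exists_eq_succ_of_ne_zero hn.ne'
    ext
    · have h5 := hz.1
      rw [Function.iterate_succ_apply'] at h5
      rw [← h5]
      exact h3 m
    · exact h3 0
  exact zero_not_saddle' hb0 hb1 _ (h4 ▸ hz)

theorem zero_mem_julia' : (0 : ℂ × ℂ) ∈ julia (hen b) := by
  have hbc : (b : ℂ) ≠ 0 := Complex.ofReal_ne_zero.2 hb0.ne'
  constructor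
  · refine zero_mem_frontier ⟨0, fun n => by simp [Function.iterate_fixed (hen_zero b)]⟩ (1, 1) ?_
    rintro s hs ⟨R, hR⟩
    have key : ∀ n : ℕ, ∃ x y : ℝ, (hen b)^[n] ((s : ℂ) • ((1, 1) : ℂ × ℂ)) = ((x : ℂ), (y : ℂ)) ∧
        x ≤ y ∧ s + n * s ^ 2 ≤ y := by
      intro n
      induction n with
      | zero => exact ⟨s, s, by simp, le_rfl, by simp⟩
      | succ n ih =>
        obtain ⟨x, y, h1, h2, h3⟩ := ih
        have h4 : 0 ≤ n * s ^ 2 := by positivity
        have h5 : s ^ 2 ≤ y ^ 2 := pow_le_pow_left₀ hs.le (by linarith) 2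
        have h6 := mul_le_mul_of_nonneg_left h2 hb0.le
        refine ⟨y, y ^ 2 + (1 + b) * y - b * x, ?_, by linarith [sq_nonneg y], ?_⟩
        · rw [Function.iterate_succ_apply', h1]
          simp [hen]
        · push_cast
          linarith
    obtain ⟨n, hn⟩ := exists_nat_gt (R / s ^ 2)
    obtain ⟨x, y, h1, -, h3⟩ := key n
    have h4 := hR n
    rw [h1] at h4
    have h5 : |y| ≤ R := by simpa using (norm_snd_le ((x : ℂ), (y : ℂ))).trans h4
    rw [div_lt_iff₀ (by positivity)] at hn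
    linarith [le_abs_self y]
  · have hinj : ∀ w, hen b w = 0 → w = 0 := by
      intro w h
      have h1 : w.2 = 0 := congrArg Prod.fst h
      have h2 : w.2 ^ 2 + (1 + b) * w.2 - b * w.1 = 0 := congrArg Prod.snd h
      rw [h1] at h2
      ext
      · simpa [hb0.ne'] using h2
      · exact h1
    have hinj' : ∀ n w, (hen b)^[n] w = 0 → w = 0 := by
      intro n
      induction n with
      | zero => exact fun w h => h
      | succ n ih => exact fun w h => hinj w (ih _ h)
    refine zero_mem_frontier ⟨0, fun n w h => by simp [hinj' n w h]⟩ (1, 0) ?_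
    rintro s hs ⟨R, hR⟩
    have key : ∀ n : ℕ, ∃ x y : ℝ, (hen b)^[n] ((x : ℂ), (y : ℂ)) = (s : ℂ) • ((1, 0) : ℂ × ℂ) ∧
        y + s ≤ x ∧ n * s ≤ y := by
      intro n
      induction n with
      | zero => exact ⟨s, 0, by simp, by simp, by simp⟩
      | succ n ih =>
        obtain ⟨x, y, h1, h2, h3⟩ := ih
        refine ⟨(x ^ 2 + (1 + b) * x - y) / b, x, ?_, ?_, ?_⟩
        · rw [Function.iterate_succ_apply, ← h1]
          congr 1
          simp only [hen]
          push_cast
          congr 1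
          field_simp
          ring
        · rw [le_div_iff₀ hb0]
          nlinarith [sq_nonneg x]
        · push_cast
          linarith
    obtain ⟨n, hn⟩ := exists_nat_gt (R / s)
    obtain ⟨x, y, h1, -, h3⟩ := key n
    have h4 := hR n _ h1
    have h5 : |y| ≤ R := by simpa using (norm_snd_le ((x : ℂ), (y : ℂ))).trans h4
    rw [div_lt_iff₀ hs] at hn
    linarith [le_abs_self y]

omit hb0 hb1 in
theorem finite_periodic' {n : ℕ} (hn : 0 < n) : {z : ℂ × ℂ | (hen b)^[n] z = z}.Finite := by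
  classical
  let S := {z : ℂ × ℂ // (hen b)^[n] z = z}
  let Y : ℕ → S → ℂ := fun j z => ((hen b)^[j] z.1).1
  have hper : ∀ j, Y (j + n) = Y j := fun j => funext fun z => by
    simp only [Y]
    rw [Function.iterate_add_apply, z.2]
  have hmod : ∀ j, Y (j % n) = Y j := by
    intro j
    have : ∀ q r, Y (r + q * n) = Y r := by
      intro q r
      induction q with
      | zero => simp
      | succ q ih => rw [Nat.succ_mul, ← add_assoc, hper, ih]
    conv_rhs => rw [← Nat.mod_add_div' j n]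
    exact (this _ _).symm
  have hrec : ∀ j, Y (j + 1) * Y (j + 1) =
      Y (j + 2) + (-(1 + b) : ℂ) • Y (j + 1) + (b : ℂ) • Y j := fun j => funext fun z => by
    simp only [Y, Pi.mul_apply, Pi.add_apply, Pi.smul_apply, smul_eq_mul]
    rw [show j + 2 = (j + 1) + 1 from rfl]
    simp only [Function.iterate_succ_apply', hen]
    ring
  let M : Submodule ℂ (S → ℂ) :=
    Submodule.span ℂ (((Finset.range n).powerset.image fun T => ∏ j ∈ T, Y j : Finset (S → ℂ)) :
      Set (S → ℂ))
  have hgen : ∀ T ⊆ Finset.range n, ∏ j ∈ T, Y j ∈ M := fun T hT =>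
    Submodule.subset_span (Finset.mem_coe.2 (Finset.mem_image.2 ⟨T, Finset.mem_powerset.2 hT, rfl⟩))
  have hmul : ∀ d, ∀ T ⊆ Finset.range n, T.card ≤ d → ∀ i, Y i * ∏ j ∈ T, Y j ∈ M := by
    intro d
    induction d with
    | zero =>
      intro T hT hc i
      have : T = ∅ := Finset.card_eq_zero.1 (by omega)
      subst this
      have := hgen {i % n} (by simpa using Nat.mod_lt i hn)
      simpa [hmod] using this
    | succ d ih =>
      intro T hT hc i
      rw [← hmod i]
      by_cases hi : i % n ∈ T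
      · rw [← Finset.mul_prod_erase T Y hi, ← mul_assoc]
        have e : Y (i % n) = Y ((i % n + n - 1) + 1) := by
          rw [show i % n + n - 1 + 1 = i % n + n by omega, hper]
        have hsub : T.erase (i % n) ⊆ Finset.range n := (Finset.erase_subset _ _).trans hT
        have hcard : (T.erase (i % n)).card ≤ d := by
          rw [Finset.card_erase_of_mem hi]
          omega
        rw [e, hrec, add_mul, add_mul, smul_mul_assoc, smul_mul_assoc]
        exact M.add_mem (M.add_mem (ih _ hsub hcard _) (M.smul_mem _ (ih _ hsub hcard _)))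
          (M.smul_mem _ (ih _ hsub hcard _))
      · rw [← Finset.prod_insert hi]
        exact hgen _ (Finset.insert_subset (Finset.mem_range.2 (Nat.mod_lt i hn)) hT)
  have hmul' : ∀ i, ∀ m ∈ M, Y i * m ∈ M := by
    intro i m hm
    refine Submodule.span_induction (p := fun m _ => Y i * m ∈ M) ?_ ?_ ?_ ?_ hm
    · intro x hx
      obtain ⟨T, hT, rfl⟩ := Finset.mem_image.1 (Finset.mem_coe.1 hx)
      exact hmul _ T (Finset.mem_powerset.1 hT) le_rfl i
    · simp
    · intro x y _ _ h1 h2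
      rw [mul_add]
      exact M.add_mem h1 h2
    · intro a x _ h
      rw [mul_smul_comm]
      exact M.smul_mem _ h
  have hpow : ∀ i m, Y i ^ m ∈ M := by
    intro i m
    induction m with
    | zero => simpa using hgen ∅ (Finset.empty_subset _)
    | succ m ih =>
      rw [pow_succ']
      exact hmul' i _ ih
  have halg : ∀ i, IsAlgebraic ℂ (Y i) := by
    intro i
    rw [isAlgebraic_iff_not_injective]
    intro hinj
    have hmem : ∀ p : Polynomial ℂ, (Polynomial.aeval (Y i)).toLinearMap p ∈ M := by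
      intro p
      simp only [AlgHom.toLinearMap_apply]
      rw [Polynomial.aeval_eq_sum_range]
      exact M.sum_mem fun m _ => M.smul_mem _ (hpow i m)
    have : Module.Finite ℂ M := Module.Finite.span_of_finite ℂ (Finset.finite_toSet _)
    have : Module.Finite ℂ (Polynomial ℂ) :=
      Module.Finite.of_injective (LinearMap.codRestrict M _ hmem) fun p q h =>
        hinj (congrArg Subtype.val h)
    exact Polynomial.not_finite this
  have hroot : ∀ i, ∃ F : Set ℂ, F.Finite ∧ ∀ z, Y i z ∈ F := by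
    intro i
    obtain ⟨p, hp, h⟩ := halg i
    refine ⟨p.rootSet ℂ, p.rootSet_finite ℂ, fun z => ?_⟩
    rw [Polynomial.mem_rootSet]
    refine ⟨hp, ?_⟩
    have := congrFun h z
    rw [Polynomial.aeval_fn_apply] at this
    exact this
  obtain ⟨F₀, h₀, h₀'⟩ := hroot 0
  obtain ⟨F₁, h₁, h₁'⟩ := hroot 1
  exact (h₀.prod h₁).subset fun z hz => ⟨h₀' ⟨z, hz⟩, h₁' ⟨z, hz⟩⟩

omit hb0 in
theorem saddles_zero' : saddles (hen b) 0 = ∅ := by
  ext z
  simp only [Set.mem_empty_iff_false, iff_false]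
  rintro ⟨-, l, m, hl, -, hev, -⟩
  obtain ⟨v, hv⟩ := hev.exists_hasEigenvector
  have h1 := hv.apply_eq_smul
  simp only [Function.iterate_zero, fderiv_id, ContinuousLinearMap.coe_id, LinearMap.id_coe,
    id_eq] at h1
  have h2 := congrArg (nr b) h1
  rw [nr_smul] at h2
  have h3 : 0 < nr b v := nr_pos hb1 hv.2
  nlinarith

omit hb0 in
theorem finite_saddles' (n : ℕ) : (saddles (hen b) n).Finite := by
  rcases Nat.eq_zero_or_pos n with rfl | hn
  · rw [saddles_zero' hb1]
    exact Set.finite_empty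
  · exact (finite_periodic' hn).subset fun z hz => hz.1

end Pool.Agent.Work.MP_636246_an.S
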