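import Pool.Agent.Work.MP_636246_an.Main

/-!
The Henon maps `(x, y) ↦ (y, y² + (1 + b) y - b x)`: where invariant measures live.
-/

open MeasureTheory Filter Topology

namespace Pool.Agent.Work.MP_636246_an.S

/-- The complex Henon map `(x, y) ↦ (y, y² + (1 + b) y - b x)`. -/
noncomputable def hen (b : ℝ) (z : ℂ × ℂ) : ℂ × ℂ := (z.2, z.2 ^ 2 + (1 + b) * z.2 - b * z.1)

theorem hen_continuous (b : ℝ) : Continuous (hen b) := by
  unfold hen
  fun_prop

theorem hen_zero (b : ℝ) : hen b 0 = 0 := by simp [hen]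

theorem nb {b : ℝ} (hb0 : 0 ≤ b) : ‖(b : ℂ)‖ = b := by
  rw [Complex.norm_real, Real.norm_of_nonneg hb0]

theorem hen_snd_ge {b : ℝ} (hb0 : 0 ≤ b) (z : ℂ × ℂ) :
    ‖z.2‖ ^ 2 - (1 + b) * ‖z.2‖ - b * ‖z.1‖ ≤ ‖(hen b z).2‖ := by
  have h1 := norm_sub_norm_le (z.2 ^ 2 + (1 + b) * z.2) (b * z.1)
  have h2 := norm_sub_norm_le (z.2 ^ 2) (-((1 + b) * z.2))
  have h3 : ‖(1 + b : ℂ)‖ = 1 + b := by
    rw [show (1 + b : ℂ) = ((1 + b : ℝ) : ℂ) by push_cast; rfl, nb (by linarith)]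
  rw [sub_neg_eq_add, norm_neg, norm_pow, norm_mul, h3] at h2
  rw [norm_mul, nb hb0] at h1
  simp only [hen]
  linarith only [h1, h2]

/-- One step inside the attracting petal. -/
theorem petal_step {b η : ℝ} (hb0 : 0 ≤ b) (hη : 0 < η) (hη1 : η ≤ 1 / 20)
    (hb : 60000 * b ≤ η ^ 2) {u v y : ℂ} (hy : (1 - b) * y = u - b * v) (hu : u ≠ 0)
    (hre : 1 + η / 5 ≤ (-u⁻¹).re) (hv : η * ‖v‖ ≤ 75 * ‖u‖) :
    u + y ^ 2 ≠ 0 ∧ (-u⁻¹).re + 1 / 2 ≤ (-(u + y ^ 2)⁻¹).re ∧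
      η * ‖b * v + y ^ 2‖ ≤ 75 * ‖u + y ^ 2‖ := by
  have hu0 : 0 < ‖u‖ := norm_pos_iff.2 hu
  have hbη : 60000 * b ≤ η / 20 := by nlinarith
  set w := -u⁻¹ with hw
  have hwu : ‖w‖ * ‖u‖ = 1 := by
    rw [hw, norm_neg, norm_inv, inv_mul_cancel₀ hu0.ne']
  have hw1 : 1 ≤ ‖w‖ := by linarith [Complex.re_le_norm w]
  have hu1 : ‖u‖ ≤ 1 := by nlinarith
  set β := (y - u) / u with hβ
  have hbv : b * ‖v‖ ≤ η / 800 * ‖u‖ := by
    have h1 : η * (b * ‖v‖) ≤ η * (η / 800 * ‖u‖) := by nlinarith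
    exact le_of_mul_le_mul_left h1 hη
  have hβ1 : ‖β‖ ≤ η / 400 := by
    rw [hβ, norm_div, div_le_iff₀ hu0]
    have e : y - u = b * u - b * v + b * (y - u) := by linear_combination hy
    have h1 : ‖y - u‖ ≤ b * ‖u‖ + b * ‖v‖ + b * ‖y - u‖ := by
      conv_lhs => rw [e]
      refine (norm_add_le _ _).trans (add_le_add ((norm_sub_le _ _).trans ?_) ?_)
      · rw [norm_mul, norm_mul, nb hb0]
      · rw [norm_mul, nb hb0]
    nlinarith [norm_nonneg (y - u)]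
  have hyu : y = u * (1 + β) := by
    rw [hβ]
    field_simp
    ring
  set γ := (1 + β) ^ 2 with hγ
  have hγ1 : ‖γ - 1‖ ≤ η / 120 := by
    have e : γ - 1 = β * β + 2 * β := by
      rw [hγ]
      ring
    rw [e]
    refine (norm_add_le _ _).trans ?_
    rw [norm_mul, norm_mul, Complex.norm_two]
    nlinarith [norm_nonneg β]
  have hγ2 : ‖γ‖ ≤ 2 := by
    have := norm_add_le (γ - 1) 1
    rw [sub_add_cancel, norm_one] at this
    linarith
  have hγre := abs_le.1 ((Complex.abs_re_le_norm (γ - 1)).trans hγ1)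
  rw [Complex.sub_re, Complex.one_re] at hγre
  have hd : η / 10 ≤ (w - γ).re := by
    rw [Complex.sub_re]
    linarith [hγre.2]
  have hdn : η / 10 ≤ ‖w - γ‖ := hd.trans (Complex.re_le_norm _)
  have hd0 : w - γ ≠ 0 := norm_pos_iff.1 (by linarith)
  have hu' : u + y ^ 2 = -(u ^ 2) * (w - γ) := by
    rw [hyu, hw, hγ]
    field_simp
    ring
  have hne : u + y ^ 2 ≠ 0 := by
    rw [hu']
    exact mul_ne_zero (neg_ne_zero.2 (pow_ne_zero _ hu)) hd0
  refine ⟨hne, ?_, ?_⟩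
  · have e : -(u + y ^ 2)⁻¹ = w + γ + ((w - γ)⁻¹ + (γ ^ 2 - 1) / (w - γ)) := by
      have e1 : u = -w⁻¹ := by rw [hw, inv_neg, inv_inv, neg_neg]
      have hw0 : w ≠ 0 := norm_pos_iff.1 (by linarith)
      rw [hu']
      generalize w = w' at *
      rw [e1]
      field_simp
      ring
    rw [e, Complex.add_re, Complex.add_re, Complex.add_re]
    have h1 : 0 ≤ ((w - γ)⁻¹).re := by
      rw [Complex.inv_re]
      exact div_nonneg (by linarith) (Complex.normSq_nonneg _)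
    have h2 : ‖(γ ^ 2 - 1) / (w - γ)‖ ≤ 1 / 4 := by
      rw [norm_div, div_le_iff₀ (by linarith), show γ ^ 2 - 1 = (γ - 1) * (γ + 1) by ring, norm_mul]
      have h3 := norm_add_le γ 1
      rw [norm_one] at h3
      nlinarith [norm_nonneg (γ - 1), norm_nonneg (γ + 1)]
    have h3 := (abs_le.1 ((Complex.abs_re_le_norm _).trans h2)).1
    linarith [hγre.1]
  · have h1 : ‖b * v + y ^ 2‖ ≤ 3 * ‖u‖ := by
      refine (norm_add_le _ _).trans ?_
      rw [hyu, mul_pow, norm_mul, norm_mul, nb hb0, norm_pow]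
      have : ‖u‖ ^ 2 * ‖γ‖ ≤ 2 * ‖u‖ := by nlinarith [norm_nonneg γ, mul_nonneg hu0.le hu0.le]
      nlinarith
    have h2 : η * ‖w‖ ≤ 25 * ‖w - γ‖ := by
      have := norm_add_le (w - γ) γ
      rw [sub_add_cancel] at this
      nlinarith
    have h3 : η * ‖u‖ ≤ 25 * ‖u + y ^ 2‖ := by
      rw [hu', norm_mul, norm_neg, norm_pow]
      have h4 := mul_le_mul_of_nonneg_left h2 (sq_nonneg ‖u‖)
      have h5 : ‖u‖ ^ 2 * (η * ‖w‖) = η * ‖u‖ * (‖w‖ * ‖u‖) := by ring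
      rw [h5, hwu] at h4
      linarith
    nlinarith

section Invariant

variable {b : ℝ} (hb0 : 0 ≤ b) (hb1 : b ≤ 1 / 100)
variable {ν : Measure (ℂ × ℂ)} [IsProbabilityMeasure ν] (hf : MeasurePreserving (hen b) ν ν)
include hb0 hb1 hf

theorem ae_plus' : ∀ᵐ z ∂ν, ¬ (3 < ‖z.2‖ ∧ ‖z.1‖ ≤ ‖z.2‖) := by
  classical
  let L : ℂ × ℂ → ℝ := fun z => if 3 < ‖z.2‖ ∧ ‖z.1‖ ≤ ‖z.2‖ then ‖z.2‖⁻¹ else 1
  have hm : Measurable L := by
    refine Measurable.ite ?_ (by fun_prop) measurable_const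
    exact (measurableSet_lt measurable_const measurable_snd.norm).inter
      (measurableSet_le measurable_fst.norm measurable_snd.norm)
  have hb : ∀ z, 0 ≤ L z ∧ L z ≤ 1 := by
    intro z
    simp only [L]
    split_ifs with h
    · exact ⟨by positivity, inv_le_one_of_one_le₀ (by linarith only [h, h.1])⟩
    · exact ⟨zero_le_one, le_rfl⟩
  have hint : Integrable L ν := Integrable.of_bound hm.aestronglyMeasurable 1
    (Eventually.of_forall fun z => by rw [Real.norm_of_nonneg (hb z).1]; exact (hb z).2)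
  have hlt : ∀ z : ℂ × ℂ, 3 < ‖z.2‖ ∧ ‖z.1‖ ≤ ‖z.2‖ → L (hen b z) < L z := by
    intro z h
    have h1 := hen_snd_ge hb0 z
    have h2 : ‖z.2‖ < ‖(hen b z).2‖ := by
      nlinarith [h.1, h.2, mul_le_mul_of_nonneg_left h.2 hb0]
    have h3 : 3 < ‖(hen b z).2‖ ∧ ‖(hen b z).1‖ ≤ ‖(hen b z).2‖ := ⟨h.1.trans h2, h2.le⟩
    simp only [L]
    rw [if_pos h, if_pos h3]
    exact inv_strictAnti₀ (by linarith only [h, h.1]) h2
  have hle : ∀ z, L (hen b z) ≤ L z := by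
    intro z
    by_cases h : 3 < ‖z.2‖ ∧ ‖z.1‖ ≤ ‖z.2‖
    · exact (hlt z h).le
    · have : L z = 1 := if_neg h
      rw [this]
      exact (hb _).2
  filter_upwards [lyapunov hf hint hle] with z hz h
  exact (hlt z h).ne hz

theorem ae_minus' : ∀ᵐ z ∂ν, ¬ (3 < ‖z.1‖ ∧ ‖z.2‖ < ‖z.1‖) := by
  classical
  let L : ℂ × ℂ → ℝ := fun z => if 3 < ‖z.1‖ ∧ ‖z.2‖ < ‖z.1‖ then 1 - ‖z.1‖⁻¹ else 0
  have hm : Measurable L := by
    refine Measurable.ite ?_ (by fun_prop) measurable_const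
    exact (measurableSet_lt measurable_const measurable_fst.norm).inter
      (measurableSet_lt measurable_snd.norm measurable_fst.norm)
  have hpos : ∀ z : ℂ × ℂ, 3 < ‖z.1‖ ∧ ‖z.2‖ < ‖z.1‖ → 0 < L z := by
    intro z h
    simp only [L]
    rw [if_pos h]
    have := inv_lt_one_of_one_lt₀ (show 1 < ‖z.1‖ by linarith [h.1])
    linarith
  have hb : ∀ z, 0 ≤ L z ∧ L z ≤ 1 := by
    intro z
    by_cases h : 3 < ‖z.1‖ ∧ ‖z.2‖ < ‖z.1‖
    · refine ⟨(hpos z h).le, ?_⟩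
      simp only [L]
      rw [if_pos h]
      have : 0 ≤ ‖z.1‖⁻¹ := by positivity
      linarith only [this]
    · have : L z = 0 := if_neg h
      rw [this]
      exact ⟨le_rfl, zero_le_one⟩
  have hint : Integrable L ν := Integrable.of_bound hm.aestronglyMeasurable 1
    (Eventually.of_forall fun z => by rw [Real.norm_of_nonneg (hb z).1]; exact (hb z).2)
  have hstep : ∀ z : ℂ × ℂ, 3 < ‖(hen b z).1‖ ∧ ‖(hen b z).2‖ < ‖(hen b z).1‖ →
      L (hen b z) < L z := by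
    intro z h
    have h1 := hen_snd_ge hb0 z
    have e : (hen b z).1 = z.2 := rfl
    have h' := h
    rw [e] at h'
    have h2 : ‖z.2‖ < ‖z.1‖ := by
      by_contra h4
      nlinarith [h'.1, h'.2, mul_le_mul_of_nonneg_left (not_lt.1 h4) hb0]
    have h3 : 3 < ‖z.1‖ ∧ ‖z.2‖ < ‖z.1‖ := ⟨h'.1.trans h2, h2⟩
    simp only [L]
    rw [if_pos h, if_pos h3, e]
    have := inv_strictAnti₀ (show 0 < ‖z.2‖ by linarith only [h', h'.1]) h2
    linarith only [this]
  have hle : ∀ z, L (hen b z) ≤ L z := by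
    intro z
    by_cases h : 3 < ‖(hen b z).1‖ ∧ ‖(hen b z).2‖ < ‖(hen b z).1‖
    · exact (hstep z h).le
    · have : L (hen b z) = 0 := if_neg h
      rw [this]
      exact (hb _).1
  filter_upwards [lyapunov hf hint hle] with z hz h
  by_cases h' : 3 < ‖(hen b z).1‖ ∧ ‖(hen b z).2‖ < ‖(hen b z).1‖
  · exact (hstep z h').ne hz
  · have : L (hen b z) = 0 := if_neg h'
    rw [this] at hz
    exact (hpos z h).ne hz

theorem ae_bounded' : ∀ᵐ z ∂ν, ‖z.1‖ ≤ 3 ∧ ‖z.2‖ ≤ 3 := by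
  filter_upwards [ae_plus' hb0 hb1 hf, ae_minus' hb0 hb1 hf] with z h1 h2
  push Not at h1 h2
  constructor
  · by_contra h
    have h3 := h2 (not_le.1 h)
    have := h1 (by linarith [not_le.1 h])
    linarith
  · by_contra h
    have h3 := h1 (not_le.1 h)
    have := h2 (by linarith [not_le.1 h])
    linarith

theorem ae_petal {η : ℝ} (hη : 0 < η) (hη1 : η ≤ 1 / 20) (hb : 60000 * b ≤ η ^ 2) :
    ∀ᵐ z ∂ν, ‖z.2‖ ≤ 3 ∧ 1 + b - η ≤ ‖2 * z.2 + 1 + (b : ℂ)‖ := by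
  classical
  let P : ℂ × ℂ → Prop := fun z => z.2 - b * z.1 ≠ 0 ∧ 1 + η / 5 ≤ (-(z.2 - b * z.1)⁻¹).re ∧
    η * ‖z.2 - z.1‖ ≤ 75 * ‖z.2 - b * z.1‖
  let L : ℂ × ℂ → ℝ := fun z => if P z then ((-(z.2 - b * z.1)⁻¹).re)⁻¹ else 1
  have hm : Measurable L := by
    refine Measurable.ite ?_ (by fun_prop) measurable_const
    refine MeasurableSet.inter ?_ (MeasurableSet.inter ?_ ?_)
    · exact (measurableSet_eq_fun (f := fun z : ℂ × ℂ => z.2 - b * z.1) (by fun_prop)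
        measurable_const).compl
    · exact measurableSet_le measurable_const
        (g := fun z : ℂ × ℂ => (-(z.2 - b * z.1)⁻¹).re) (by fun_prop)
    · exact measurableSet_le (f := fun z : ℂ × ℂ => η * ‖z.2 - z.1‖)
        (g := fun z : ℂ × ℂ => 75 * ‖z.2 - b * z.1‖) (by fun_prop) (by fun_prop)
  have hL : ∀ z, 0 ≤ L z ∧ L z ≤ 1 := by
    intro z
    simp only [L]
    split_ifs with h
    · exact ⟨inv_nonneg.2 (by linarith [h.2.1]), inv_le_one_of_one_le₀ (by linarith [h.2.1])⟩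
    · exact ⟨zero_le_one, le_rfl⟩
  have hint : Integrable L ν := Integrable.of_bound hm.aestronglyMeasurable 1
    (Eventually.of_forall fun z => by rw [Real.norm_of_nonneg (hL z).1]; exact (hL z).2)
  have hlt : ∀ z : ℂ × ℂ, P z → L (hen b z) < L z := by
    intro z h
    obtain ⟨h1, h2, h3⟩ := petal_step hb0 hη hη1 hb (u := z.2 - b * z.1) (v := z.2 - z.1) (y := z.2)
      (by ring) h.1 h.2.1 h.2.2
    have e1 : (hen b z).2 - b * (hen b z).1 = z.2 - b * z.1 + z.2 ^ 2 := by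
      simp only [hen]
      ring
    have e2 : (hen b z).2 - (hen b z).1 = b * (z.2 - z.1) + z.2 ^ 2 := by
      simp only [hen]
      ring
    have h4 : P (hen b z) := by
      simp only [P]
      rw [e1, e2]
      exact ⟨h1, by linarith [h.2.1], h3⟩
    simp only [L]
    rw [if_pos h, if_pos h4, e1]
    exact inv_strictAnti₀ (by linarith [h.2.1]) (by linarith)
  have hle : ∀ z, L (hen b z) ≤ L z := by
    intro z
    by_cases h : P z
    · exact (hlt z h).le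
    · have : L z = 1 := if_neg h
      rw [this]
      exact (hL _).2
  filter_upwards [lyapunov hf hint hle, ae_bounded' hb0 hb1 hf] with z hz hbd
  refine ⟨hbd.2, ?_⟩
  by_contra h
  refine (hlt z ?_).ne hz
  have hbη : 60000 * b ≤ η / 20 := by nlinarith
  set u := z.2 - b * z.1 with hu
  have h1 : ‖2 * u + 1‖ ≤ 1 - η / 2 := by
    have e : 2 * u + 1 = (2 * z.2 + 1 + b) - b - 2 * (b * z.1) := by
      rw [hu]
      ring
    rw [e]
    refine (norm_sub_le _ _).trans ?_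
    have h2 := norm_sub_le (2 * z.2 + 1 + b) b
    rw [nb hb0] at h2
    rw [norm_mul, norm_mul, Complex.norm_two, nb hb0]
    nlinarith [hbd.1, not_le.1 h]
  have h2 : η / 4 ≤ ‖u‖ := by
    have := norm_sub_le (2 * u + 1) (2 * u)
    rw [add_sub_cancel_left, norm_one, norm_mul, Complex.norm_two] at this
    linarith
  have h3 : ‖u‖ ≤ 1 := by
    have := norm_sub_le (2 * u + 1) 1
    rw [add_sub_cancel_right, norm_one, norm_mul, Complex.norm_two] at this
    linarith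
  have hu0 : u ≠ 0 := norm_pos_iff.1 (by linarith)
  have h4 : ‖2 * u + 1‖ ^ 2 = 4 * Complex.normSq u + 4 * u.re + 1 := by
    rw [Complex.sq_norm, Complex.normSq_apply, Complex.normSq_apply]
    simp
    ring
  have h5 : ‖2 * u + 1‖ ^ 2 ≤ (1 - η / 2) ^ 2 := pow_le_pow_left₀ (norm_nonneg _) h1 2
  have h6 : Complex.normSq u ≤ 1 := by
    rw [← Complex.sq_norm]
    nlinarith [norm_nonneg u]
  refine ⟨hu0, ?_, ?_⟩
  · rw [Complex.neg_re, Complex.inv_re, ← neg_div, le_div_iff₀ (Complex.normSq_pos.2 hu0)]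
    nlinarith
  · have h7 := norm_sub_le z.2 z.1
    nlinarith [hbd.1, hbd.2]

end Invariant

end Pool.Agent.Work.MP_636246_an.S
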