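import Pool.Agent.Work.MP_636246_an.S.Ind

/-!
The sharp entropy bound for invariant measures of `hen b`.
-/

open MeasureTheory Filter Topology

namespace Pool.Agent.Work.MP_636246_an.S

theorem limsup_le_of_le' {a : ℕ → ℝ} {c d : ℝ} (h : ∀ n, 0 < n → a n ≤ c + n * d) :
    limsup (fun n : ℕ => ((a n / n : ℝ) : EReal)) atTop ≤ (d : EReal) := by
  have h1 : Tendsto (fun n : ℕ => c / n + d) atTop (nhds d) := by
    simpa using (tendsto_const_div_atTop_nhds_zero_nat c).add_const d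
  have h2 : Tendsto (fun n : ℕ => ((c / n + d : ℝ) : EReal)) atTop (nhds (d : EReal)) :=
    (continuous_coe_real_ereal.tendsto d).comp h1
  rw [← h2.limsup_eq]
  refine limsup_le_limsup ?_
  filter_upwards [eventually_gt_atTop 0] with n hn
  have hn' : (0 : ℝ) < n := by exact_mod_cast hn
  rw [EReal.coe_le_coe_iff, div_le_iff₀ hn', add_mul, div_mul_cancel₀ _ hn'.ne', mul_comm]
  exact h n hn

theorem mw_continuous (ε : ℝ) : Continuous fun z : ℂ × ℂ => mw ε z.2 := by
  unfold mw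
  fun_prop

theorem mw_integrable {ε : ℝ} (hε : 0 < ε) (ν : Measure (ℂ × ℂ)) [IsFiniteMeasure ν] :
    Integrable (fun z : ℂ × ℂ => mw ε z.2) ν :=
  Integrable.of_bound (mw_continuous ε).aestronglyMeasurable 1 (Eventually.of_forall fun z => by
    rw [Real.norm_of_nonneg (mw_nonneg hε _)]
    exact mw_le _ _)

theorem fine_cost {η ε s : ℝ} (hε : 0 < ε) (hs : 0 ≤ s) (h1 : 12 * η ≤ s) (h2 : 24 * ε ≤ s)
    (w : ℂ) : 12 * min η (2 * ‖w‖) ≤ s * mw ε w := by
  rw [mw, mul_min_of_nonneg _ _ hs]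
  refine le_min ?_ (by linarith [min_le_left η (2 * ‖w‖)])
  rw [← mul_div_assoc, le_div_iff₀ hε]
  nlinarith [min_le_right η (2 * ‖w‖), norm_nonneg w]

/-- The cover of all good points obtained from the coding. -/
theorem cov_good {X A : Type} [Fintype A] {it : X → A} {b η c e ε s δ τ : ℝ} {M K n : ℕ}
    (P : Par b η c e ε s δ τ M) (hK : 1 ≤ K) (hn : 0 < n) (a : X → ℕ → ℂ) (B : X → ℝ)
    (hB : ∀ x, 0 ≤ B x)
    (hpay : ∀ x, Good b η (a x) → ∀ σ, e / 2 ≤ ‖a x (σ + 1)‖ → Pay s ε e K (a x) σ 1)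
    (hbase : ∀ S : Set X, (∀ x ∈ S, ∀ x' ∈ S, ∀ j, 2 * M ≤ j → j ≤ n → ‖a x j - a x' j‖ ≤ τ) →
      Cov it S B) :
    Cov it {x | Good b η (a x)} fun x =>
      Wt η ε s τ M K (a x) (B x) ((1 / 2) ^ K / ((n : ℝ) + 1) ^ 2) n n 0 / (6 / δ + 2) ^ 4 := by
  obtain ⟨l, rfl⟩ : ∃ l, n = l + 1 := ⟨n - 1, by omega⟩
  have hδ := P.δ0
  have h1 : 2 * δ ≤ τ := by
    have h8 : 1 ≤ Real.exp (3 / 5 * M) := Real.one_le_exp (by positivity)
    have h9 := mul_le_mul_of_nonneg_left h8 hδ.le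
    linarith [P.δτ]
  refine cov_off2 (g := fun x => a x (l + 1)) (B := 3) (R := fun _ => 6 / δ) hδ
    (fun x hx => hx.2.1 _) (fun x hx x' hx' => ?_)
    (fun x _ => Wt_nonneg (hB x) (by positivity) _ _ _) fun S hS h2 => ?_
  · rw [mul_div_cancel₀ _ hδ.ne']
    exact Good.six hx hx' _
  · refine coding P hK a B hB hpay hbase _ l (l + 1) 0 _ S le_rfl le_rfl le_rfl (by omega)
      (by positivity) ?_ (fun x hx => hS hx) (fun x hx x' hx' j h3 h4 => ?_) h2
      (fun x hx x' hx' j h3 h4 => ?_) (fun x hx j h3 h4 => by omega)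
      fun x _ => pay_top P.s0 P.ε0 hK _ _
    · have h3 : (0 : ℝ) ≤ ((l + 1 : ℕ) : ℝ) := Nat.cast_nonneg _
      exact (div_le_self (by positivity) (by nlinarith)).trans
        (pow_le_one₀ (by norm_num) (by norm_num))
    · rw [show j = l + 1 by omega]
      exact ((h2 x hx x' hx').trans h1).trans P.τc
    · rw [show j = l + 1 by omega]
      exact (h2 x hx x' hx').trans h1

theorem limsup_block {b η c e ε s : ℝ} {K : ℕ} (hb0 : 0 < b) (hs : 0 < s) (hs1 : s ≤ 1 / 10)
    (hη : η = s / 12) (he : e = s / 8) (hc : c = s / 16) (hK : 1 ≤ K) (hε : 0 < ε)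
    (hεs : 24 * ε ≤ s) (hbη : 60000 * b ≤ η ^ 2) (hbc : 200 * b ≤ c)
    (hεK : ε + 3 * b ≤ (1 / 2) ^ K * (e / 2)) (hsK : 256 ≤ e ^ 2 * Real.exp (s * K))
    {ν : Measure (ℂ × ℂ)} [IsProbabilityMeasure ν] (hf : MeasurePreserving (hen b) ν ν)
    {k : ℕ} {ξ : ℂ × ℂ → Fin k} (hξ : Measurable ξ) {r : ℝ} (hr : 0 < r) (hr1 : r ≤ 1 / 2) :
    limsup (fun n : ℕ => ((blockEntropy (hen b) ν ξ n / n : ℝ) : EReal)) atTop ≤
      (((Real.log 2 + 3 * s) * ∫ z, mw ε z.2 ∂ν + 7 * r : ℝ) : EReal) := by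
  classical
  have hk1 : (1 : ℝ) ≤ k := by exact_mod_cast (ξ 0).pos
  have hb1 : b ≤ 1 / 100 := by linarith
  have hl2 : 0 < Real.log 2 := Real.log_pos (by norm_num)
  set L := Real.log (k / r) with hL
  have hL0 : 0 ≤ L := Real.log_nonneg ((one_le_div hr).2 (by linarith))
  obtain ⟨C, hCm, hC, ρ, hρ, hsep⟩ := exists_compact_sep ν hξ (ε := r / (L + 1)) (by positivity)
  set τ := min (c / 4) (min ρ (r / 12)) with hτ
  have hτ0 : 0 < τ := lt_min (by linarith) (lt_min hρ (by linarith))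
  have hτ1 : τ ≤ c / 4 := min_le_left _ _
  have hτ2 : τ ≤ ρ := (min_le_right _ _).trans (min_le_left _ _)
  have hτ3 : τ ≤ r / 12 := (min_le_right _ _).trans (min_le_right _ _)
  obtain ⟨M, hM1, hM2, hM3⟩ : ∃ M : ℕ, 1 ≤ M ∧ 12 / (M : ℝ) ≤ r ∧ (1 / 2 : ℝ) ^ M ≤ τ / 30 := by
    obtain ⟨M₁, h1⟩ := exists_pow_lt_of_lt_one (show 0 < τ / 30 by linarith)
      (show (1 / 2 : ℝ) < 1 by norm_num)
    obtain ⟨M₂, h2⟩ := exists_nat_gt (12 / r)
    refine ⟨M₁ + M₂ + 1, by omega, ?_,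
      (pow_le_pow_of_le_one (by norm_num) (by norm_num) (by omega)).trans h1.le⟩
    rw [div_lt_iff₀ hr] at h2
    rw [div_le_iff₀ (by positivity)]
    push_cast
    nlinarith [(Nat.cast_nonneg M₁ : (0 : ℝ) ≤ M₁)]
  set δ := 6 * (2 * b) ^ M with hδ
  have hδ0 : 0 < δ := by positivity
  have hδτ : 5 * δ * Real.exp (3 / 5 * M) ≤ τ := by
    have h1 : (2 * b) ^ M * Real.exp (3 / 5 * M) ≤ (1 / 2) ^ M := by
      rw [mul_comm (3 / 5 : ℝ), Real.exp_nat_mul, ← mul_pow]
      refine pow_le_pow_left₀ (by positivity) ?_ M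
      have h2 := Real.exp_le_exp.2 (show (3 / 5 : ℝ) ≤ 1 by norm_num)
      nlinarith [Real.exp_one_lt_d9, Real.exp_pos (3 / 5 : ℝ)]
    rw [hδ]
    linarith
  have P : Par b η c e ε s δ τ M :=
    ⟨hb0.le, hb1, by linarith, by linarith, by linarith, by linarith, hε, by linarith, by linarith,
      hs.le, hδ0, hM1, le_rfl, hδτ, by linarith⟩
  set a : ℂ × ℂ → ℕ → ℂ := fun x j => ((hen b)^[j] x).2 with ha
  have hgood : ∀ᵐ x ∂ν, x ∈ {x | Good b η (a x)} := by
    have h1 := ae_petal hb0.le hb1 hf (η := η) (by linarith) (by linarith) hbη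
    filter_upwards [ae_all_iff.2 fun j => (hf.iterate j).quasiMeasurePreserving.ae h1] with x hx
    refine ⟨fun j => ?_, fun j => (hx j).1, fun j => (hx j).2⟩
    simp only [ha, show j + 2 = (j + 1) + 1 from rfl, Function.iterate_succ_apply', hen]
  set F : ℂ × ℂ → ℝ := fun z =>
    (Real.log 2 + 3 * s) * mw ε z.2 + Cᶜ.indicator (fun _ => L) z + 4 * r with hF
  have hi1 := (mw_integrable hε ν).const_mul (Real.log 2 + 3 * s)
  have hi2 : Integrable (Cᶜ.indicator fun _ => L) ν := (integrable_const L).indicator hCm.compl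
  have hi3 : Integrable
      (fun z : ℂ × ℂ => (Real.log 2 + 3 * s) * mw ε z.2 + Cᶜ.indicator (fun _ => L) z) ν :=
    hi1.add hi2
  have hFi : Integrable F ν := hi3.add (integrable_const _)
  have hFI : ∫ z, F z ∂ν ≤ (Real.log 2 + 3 * s) * ∫ z, mw ε z.2 ∂ν + 5 * r := by
    simp only [hF]
    rw [integral_add hi3 (integrable_const _), integral_add hi1 hi2, integral_const_mul,
      integral_indicator_const _ hCm.compl]
    simp only [integral_const, probReal_univ, smul_eq_mul, one_mul]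
    have h1 := mul_le_mul_of_nonneg_right hC hL0
    have h2 : r / (L + 1) * L ≤ r := by
      rw [div_mul_eq_mul_div, div_le_iff₀ (by linarith)]
      nlinarith
    linarith
  have hind : ∀ z, 0 ≤ Cᶜ.indicator (fun _ => L) z := fun z => Set.indicator_nonneg (fun _ _ => hL0) z
  have hlett : ∀ z, Real.exp (-(Cᶜ.indicator (fun _ => L) z + 2 * r)) ≤ lett C r k z := by
    intro z
    unfold lett
    by_cases hz : z ∈ C
    · rw [if_pos hz, Set.indicator_of_notMem (by simpa using hz), zero_add, Real.exp_neg,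
        inv_le_comm₀ (Real.exp_pos _) (by linarith), inv_le_iff_one_le_mul₀ (by linarith)]
      nlinarith [Real.add_one_le_exp (2 * r)]
    · rw [if_neg hz, Set.indicator_of_mem (by simpa using hz)]
      refine (Real.exp_le_exp.2 (show _ ≤ -L by linarith)).trans_eq ?_
      rw [Real.exp_neg, hL, Real.exp_log (by positivity), inv_div]
  set D := K * Real.log 2 + 4 * Real.log (6 / δ + 2) + (2 * M + 1 : ℕ) * Real.log k with hD
  refine limsup_le_of_le' (c := D + (2 * r - 2 * Real.log r) + ∫ z, F z ∂ν) fun n hn => ?_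
  have hcov := cov_good (it := fun x (j : Fin n) => ξ ((hen b)^[j] x)) P hK hn a
    (fun x => (1 / k : ℝ) ^ (2 * M + 1) * ∏ j ∈ Finset.range n, lett C r k ((hen b)^[j] x))
    (fun x => mul_nonneg (by positivity)
      (Finset.prod_nonneg fun j _ => (Real.exp_pos _).le.trans (hlett _)))
    (fun x hx σ h => pay_exit hb0.le hb1 hx.1 hx.2.1 hs hε (by linarith) (by linarith) (by linarith)
      hK hεK hsK h)
    fun S hS => cov_base ξ (fun x j => (hen b)^[j] x) C hr (by linarith)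
      fun x hx x' hx' j h1 h2 h3 h4 => hsep _ h3 _ h4 (by
        obtain ⟨j, rfl⟩ : ∃ j', j = j' + 1 := ⟨j - 1, by omega⟩
        rw [Prod.dist_eq, dist_eq_norm, dist_eq_norm]
        refine max_le ?_ ((hS x hx x' hx' (j + 1) (by omega) (by omega)).trans hτ2)
        rw [Function.iterate_succ_apply', Function.iterate_succ_apply']
        exact (hS x hx x' hx' j (by omega) (by omega)).trans hτ2)
  have hUi : Integrable (fun x => ∑ j ∈ Finset.range (n + 1), F ((hen b)^[j] x)) ν :=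
    integrable_finsetSum _ fun j _ => (integral_iterate hf hFi j).1
  have hE := blockEntropy_le_of_cov hf.measurable hξ n hgood
    (U := fun x => (D + 2 * Real.log (n + 1)) + ∑ j ∈ Finset.range (n + 1), F ((hen b)^[j] x))
    ((integrable_const _).add hUi) (hcov.mono fun x _ => ?_)
  · rw [integral_add (integrable_const _) hUi,
      integral_finsetSum _ fun j _ => (integral_iterate hf hFi j).1,
      Finset.sum_congr rfl fun j _ => (integral_iterate hf hFi j).2] at hE
    simp only [integral_const, probReal_univ, smul_eq_mul, one_mul, Finset.sum_const,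
      Finset.card_range, nsmul_eq_mul] at hE
    have h1 : Real.log (n + 1) ≤ r * (n + 1) - Real.log r := by
      have h2 := Real.log_le_sub_one_of_pos (show 0 < r * (n + 1) by positivity)
      rw [Real.log_mul hr.ne' (by positivity)] at h2
      linarith
    have h2 := mul_le_mul_of_nonneg_left hFI (Nat.cast_nonneg n : (0 : ℝ) ≤ n)
    push_cast at hE
    linarith
  · have e1 : ((1 : ℝ) / 2) ^ K / ((n : ℝ) + 1) ^ 2 =
        Real.exp (-(K * Real.log 2) - 2 * Real.log (n + 1)) := by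
      rw [Real.exp_sub, exp_neg_mul_log_two, show 2 * Real.log (n + 1) = (2 : ℕ) * Real.log (n + 1) by
        norm_num, Real.exp_nat_mul, Real.exp_log (by positivity)]
    have e2 : (1 / k : ℝ) ^ (2 * M + 1) = Real.exp (-((2 * M + 1 : ℕ) * Real.log k)) := by
      rw [Real.exp_neg, Real.exp_nat_mul, Real.exp_log (by linarith), one_div, inv_pow]
    have e3 : (6 / δ + 2) ^ 4 = Real.exp (4 * Real.log (6 / δ + 2)) := by
      rw [show 4 * Real.log (6 / δ + 2) = (4 : ℕ) * Real.log (6 / δ + 2) by norm_num,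
        Real.exp_nat_mul, Real.exp_log (by positivity)]
    have e4 : Real.exp (-∑ j ∈ Finset.range n, (Cᶜ.indicator (fun _ => L) ((hen b)^[j] x) + 2 * r)) ≤
        ∏ j ∈ Finset.range n, lett C r k ((hen b)^[j] x) := by
      rw [← Finset.sum_neg_distrib, Real.exp_sum]
      exact Finset.prod_le_prod (fun j _ => (Real.exp_pos _).le) fun j _ => hlett _
    unfold Wt
    rw [G_zero, div_one, e1, e2, e3]
    refine le_trans ?_ (div_le_div_of_nonneg_right (mul_le_mul_of_nonneg_right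
      (mul_le_mul_of_nonneg_left (mul_le_mul_of_nonneg_left e4 (Real.exp_pos _).le)
        (Real.exp_pos _).le) (Real.exp_pos _).le) (Real.exp_pos _).le)
    rw [← Real.exp_add, ← Real.exp_add, ← Real.exp_add, ← Real.exp_sub, Real.exp_le_exp]
    have h1 : ∑ j ∈ Finset.range n, (Cᶜ.indicator (fun _ => L) ((hen b)^[j] x) + 2 * r) +
        ∑ j ∈ Finset.range n, (12 * (min η (2 * ‖a x j‖) + τ) + 12 / M) +
        ∑ j ∈ Finset.range n, (Real.log 2 + 2 * s) * mw ε (a x j) ≤
        ∑ j ∈ Finset.range n, F ((hen b)^[j] x) := by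
      rw [← Finset.sum_add_distrib, ← Finset.sum_add_distrib]
      refine Finset.sum_le_sum fun j _ => ?_
      have h2 := fine_cost hε hs.le (show 12 * η ≤ s by linarith) hεs (a x j)
      simp only [hF, ha] at h2 ⊢
      linarith
    have h2 : (Real.log 2 + 2 * s) * mw ε (a x n) ≤ F ((hen b)^[n] x) := by
      have h3 := mul_nonneg hs.le (mw_nonneg hε (a x n))
      have h4 := hind ((hen b)^[n] x)
      simp only [hF, ha] at h3 ⊢
      linarith
    rw [Finset.sum_range_succ, Finset.sum_range_succ, hD]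
    linarith

theorem entropy_sharp {s : ℝ} (hs : 0 < s) (hs1 : s ≤ 1 / 10) :
    ∃ b₀ ε : ℝ, 0 < b₀ ∧ b₀ ≤ (s / 12) ^ 2 / 60000 ∧ 0 < ε ∧ ε ≤ 1 / 8 ∧
      ∀ b : ℝ, 0 < b → b ≤ b₀ → ∀ ν ∈ invProb (hen b), ksEntropy (hen b) ν ≤ (((Real.log 2 + 3 * s) * ∫ z, mw ε z.2 ∂ν : ℝ) : EReal) := by
  obtain ⟨K, hK, hsK⟩ : ∃ K : ℕ, 1 ≤ K ∧ 256 ≤ (s / 8) ^ 2 * Real.exp (s * K) := by
    obtain ⟨K, h⟩ := exists_nat_gt (256 / ((s / 8) ^ 2 * s))
    refine ⟨K + 1, by omega, ?_⟩
    rw [div_lt_iff₀ (by positivity)] at h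
    have h1 := mul_le_mul_of_nonneg_left (Real.add_one_le_exp (s * ((K + 1 : ℕ) : ℝ)))
      (sq_nonneg (s / 8))
    have h2 : 0 ≤ (s / 8) ^ 2 * (s + 1) := by positivity
    push_cast at h1 ⊢
    linarith
  set p := (1 / 2 : ℝ) ^ K * (s / 8 / 2) with hp
  have hp0 : 0 < p := by positivity
  set ε := min (p / 2) (s / 24) with hε
  have hε0 : 0 < ε := lt_min (by positivity) (by positivity)
  have hε1 : ε ≤ p / 2 := min_le_left _ _
  have hε2 : ε ≤ s / 24 := min_le_right _ _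
  refine ⟨min ((s / 12) ^ 2 / 60000) (min (s / 16 / 200) (p / 6)), ε,
    lt_min (by positivity) (lt_min (by positivity) (by positivity)), min_le_left _ _, hε0,
    by linarith, fun b hb0 hb ν hν => ?_⟩
  have hb1 : b ≤ (s / 12) ^ 2 / 60000 := hb.trans (min_le_left _ _)
  have hb2 : b ≤ s / 16 / 200 := hb.trans ((min_le_right _ _).trans (min_le_left _ _))
  have hb3 : b ≤ p / 6 := hb.trans ((min_le_right _ _).trans (min_le_right _ _))
  have := hν.1
  refine iSup_le fun k => iSup_le fun ξ => iSup_le fun hξ => ?_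
  refine le_of_forall_gt_imp_ge_of_dense fun c hc => ?_
  induction c with
  | bot => exact absurd hc (not_lt_bot)
  | top => exact le_top
  | coe c =>
    have hc' := EReal.coe_lt_coe_iff.1 hc
    refine (limsup_block hb0 hs hs1 rfl rfl rfl hK hε0 (by linarith) (by linarith) (by linarith)
      (by linarith) hsK hν.2 hξ
      (r := min ((c - (Real.log 2 + 3 * s) * ∫ z, mw ε z.2 ∂ν) / 7) (1 / 2))
      (lt_min (by linarith) (by norm_num)) (min_le_right _ _)).trans ?_
    refine EReal.coe_le_coe_iff.2 ?_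
    linarith [min_le_left ((c - (Real.log 2 + 3 * s) * ∫ z, mw ε z.2 ∂ν) / 7) (1 / 2)]

end Pool.Agent.Work.MP_636246_an.S
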