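import Pool.Agent.Work.MP_636246_an.S.Ent
import Pool.Agent.Work.MP_636246_an.S.Cyc

/-!
Pressure, equilibrium state and weighted saddle sums for the weights `-t min(|y|/ε, 1)`.
-/

open MeasureTheory Filter Topology

namespace Pool.Agent.Work.MP_636246_an.S

/-- The weights. -/
noncomputable def ph (ε t : ℝ) (z : ℂ × ℂ) : ℝ := -t * mw ε z.2

theorem ph_osc {ε t : ℝ} (hε : 0 < ε) (ht : 0 ≤ t) (z w : ℂ × ℂ) : ph ε t z - ph ε t w ≤ t := by
  have h1 := mul_nonneg ht (mw_nonneg hε z.2)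
  have h2 := mul_le_mul_of_nonneg_left (mw_le ε w.2) ht
  simp only [ph]
  linarith

theorem ph_holder {ε t : ℝ} (hε : 0 < ε) (hε1 : ε ≤ 1) (ht : 0 ≤ t) (α : ℝ) (h0 : 0 < α)
    (h1 : α ≤ 1) (z w : ℂ × ℂ) :
    |ph ε t z - ph ε t w| ≤ t / ε * Real.sqrt (‖z.1 - w.1‖ ^ 2 + ‖z.2 - w.2‖ ^ 2) ^ α := by
  set d := Real.sqrt (‖z.1 - w.1‖ ^ 2 + ‖z.2 - w.2‖ ^ 2) with hd
  have hd0 : 0 ≤ d := Real.sqrt_nonneg _
  have hd1 : ‖z.2 - w.2‖ ≤ d := Real.le_sqrt_of_sq_le (by linarith only [sq_nonneg ‖z.1 - w.1‖])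
  have h2 : |mw ε z.2 - mw ε w.2| ≤ d / ε := by
    refine (abs_min_sub_min_le_max _ _ _ _).trans (max_le ?_ ?_)
    · rw [← sub_div, abs_div, abs_of_pos hε]
      exact div_le_div_of_nonneg_right ((abs_norm_sub_norm_le z.2 w.2).trans hd1) hε.le
    · simpa using div_nonneg hd0 hε.le
  have h3 : |mw ε z.2 - mw ε w.2| ≤ 1 := by
    have := mw_nonneg hε z.2
    have := mw_nonneg hε w.2
    have := mw_le ε z.2
    have := mw_le ε w.2
    rw [abs_le]
    constructor <;> linarith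
  have h4 : |mw ε z.2 - mw ε w.2| ≤ d ^ α / ε := by
    rcases le_total d 1 with h | h
    · exact h2.trans (div_le_div_of_nonneg_right (Real.self_le_rpow_of_le_one hd0 h h1) hε.le)
    · exact h3.trans ((one_le_div hε).2 (hε1.trans (Real.one_le_rpow h h0.le)))
  have e : ph ε t z - ph ε t w = -t * (mw ε z.2 - mw ε w.2) := by
    simp only [ph]
    ring
  rw [e, abs_mul, abs_neg, abs_of_nonneg ht, div_mul_eq_mul_div, mul_div_assoc]
  exact mul_le_mul_of_nonneg_left h4 ht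

theorem dirac_mem' (b : ℝ) : Measure.dirac (0 : ℂ × ℂ) ∈ invProb (hen b) := by
  refine ⟨inferInstance, (hen_continuous b).measurable, ?_⟩
  rw [Measure.map_dirac' (hen_continuous b).measurable, hen_zero]

section
variable {b ε t₀ t : ℝ} (hb0 : 0 < b) (hε : 0 < ε) (ht : t₀ < t)
  (H : ∀ ν ∈ invProb (hen b), ksEntropy (hen b) ν ≤ ((t₀ * ∫ z, mw ε z.2 ∂ν : ℝ) : EReal))
include H

theorem fe_le {ν : Measure (ℂ × ℂ)} (hν : ν ∈ invProb (hen b)) :
    freeEnergy (hen b) (ph ε t) ν ≤ ((-(t - t₀) * ∫ z, mw ε z.2 ∂ν : ℝ) : EReal) := by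
  have h2 : ∫ z, ph ε t z ∂ν = -t * ∫ z, mw ε z.2 ∂ν := integral_const_mul _ _
  unfold freeEnergy
  rw [h2]
  refine (add_le_add_left (H ν hν) _).trans ?_
  rw [← EReal.coe_add, EReal.coe_le_coe_iff]
  linarith

include hε ht

theorem fe_nonpos {ν : Measure (ℂ × ℂ)} (hν : ν ∈ invProb (hen b)) :
    freeEnergy (hen b) (ph ε t) ν ≤ 0 := by
  refine (fe_le H hν).trans ?_
  have : 0 ≤ ∫ z, mw ε z.2 ∂ν := integral_nonneg fun z => mw_nonneg hε _
  exact EReal.coe_nonpos.2 (by nlinarith)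

theorem fe_dirac : freeEnergy (hen b) (ph ε t) (Measure.dirac 0) = 0 := by
  refine le_antisymm (fe_nonpos hε ht H (dirac_mem' b)) ?_
  unfold freeEnergy
  rw [integral_dirac]
  have : ph ε t 0 = 0 := by simp [ph, mw]
  simp only [this, EReal.coe_zero, add_zero]
  exact ksEntropy_nonneg _ _

theorem pressure_eq' : pressure (hen b) (ph ε t) = ((0 : ℝ) : EReal) := by
  refine le_antisymm (iSup₂_le fun ν hν => fe_nonpos hε ht H hν) ?_
  exact le_iSup₂_of_le _ (dirac_mem' b) (fe_dirac hε ht H).ge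

include hb0

theorem unique_eq' (ν : Measure (ℂ × ℂ)) :
    (ν ∈ invProb (hen b) ∧ freeEnergy (hen b) (ph ε t) ν = ((0 : ℝ) : EReal)) ↔
      ν = Measure.dirac 0 := by
  constructor
  · rintro ⟨hν, h⟩
    have := hν.1
    have h1 := fe_le (t := t) H hν
    rw [h, EReal.coe_le_coe_iff] at h1
    have h0 : 0 ≤ ∫ z, mw ε z.2 ∂ν := integral_nonneg fun z => mw_nonneg hε _
    have h2 : ∫ z, mw ε z.2 ∂ν = 0 := le_antisymm (by nlinarith) h0
    have h3 := (integral_eq_zero_iff_of_nonneg (fun z => mw_nonneg hε _) (mw_integrable hε ν)).1 h2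
    have h3' : ∀ᵐ z ∂ν, z.2 = 0 := by
      filter_upwards [h3] with z hz
      have hz' : min (‖z.2‖ / ε) 1 = 0 := hz
      rcases min_eq_iff.1 hz' with h | h
      · exact norm_eq_zero.1 ((div_eq_zero_iff.1 h.1).resolve_right hε.ne')
      · norm_num at h
    have h4 : id =ᵐ[ν] fun _ => (0 : ℂ × ℂ) := by
      filter_upwards [h3', hν.2.quasiMeasurePreserving.ae h3'] with z hz1 hz2
      simp only [hen, hz1] at hz2
      ext
      · simpa [hb0.ne'] using hz2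
      · exact hz1
    have h5 : ν.map id = ν.map (fun _ => (0 : ℂ × ℂ)) := Measure.map_congr h4
    rw [Measure.map_id, Measure.map_const] at h5
    simpa using h5
  · rintro rfl
    exact ⟨dirac_mem' b, fe_dirac hε ht H⟩

end

/-- The weighted sums tested on the bump function. -/
noncomputable def Zw (b ε t : ℝ) (n : ℕ) : ℝ := Real.exp (-(n : ℝ) * 0) *
  ∑ᶠ z ∈ saddles (hen b) n, Real.exp (∑ j ∈ Finset.range n, ph ε t ((hen b)^[j] z)) * bump z

theorem Zw_le {b ε t s : ℝ} (hb0 : 0 < b) (hb1 : b ≤ 1 / 100) (hε : 0 < ε) (hε1 : ε ≤ 1 / 8)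
    (hs : 0 ≤ s) {n : ℕ} (hn : 0 < n) : Zw b ε (t + s) n ≤ Real.exp (-s) * Zw b ε t n := by
  simp only [Zw, mul_zero, Real.exp_zero, one_mul]
  rw [finsum_mem_eq_finite_toFinset_sum _ (finite_saddles' hb1 n),
    finsum_mem_eq_finite_toFinset_sum _ (finite_saddles' hb1 n), Finset.mul_sum]
  refine Finset.sum_le_sum fun z hz => ?_
  obtain ⟨j, hj, h1⟩ := saddle_far' hb0 hb1 hn ((Set.Finite.mem_toFinset _).1 hz)
  have h2 : 1 ≤ ∑ j ∈ Finset.range n, mw ε ((hen b)^[j] z).2 :=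
    (mw_one hε (hε1.trans h1.le)).ge.trans (Finset.single_le_sum
      (f := fun j => mw ε ((hen b)^[j] z).2) (fun j _ => mw_nonneg hε _) (Finset.mem_range.2 hj))
  rw [← mul_assoc, ← Real.exp_add]
  refine mul_le_mul_of_nonneg_right (Real.exp_le_exp.2 ?_) (bump_nonneg z)
  simp only [ph, ← Finset.mul_sum]
  nlinarith

theorem not_tendsto' {b ε t s : ℝ} (hb0 : 0 < b) (hb1 : b ≤ 1 / 100) (hε : 0 < ε) (hε1 : ε ≤ 1 / 8)
    (hs : 0 < s) : ∃ t', t ≤ t' ∧ t' ≤ t + s ∧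
      ¬ Tendsto (Zw b ε t') atTop (𝓝 (∫ z, bump z ∂(Measure.dirac 0))) := by
  have h1 : ∫ z, bump z ∂(Measure.dirac (0 : ℂ × ℂ)) = 1 := by
    rw [integral_dirac]
    change 1 - min ‖(0 : ℂ × ℂ)‖ 1 = 1
    simp
  rw [h1]
  by_contra H
  push Not at H
  have h2 := H (t + s) (by linarith) le_rfl
  have h3 := (H t le_rfl (by linarith)).const_mul (Real.exp (-s))
  have h4 := le_of_tendsto_of_tendsto h2 h3
    ((eventually_gt_atTop 0).mono fun n hn => Zw_le hb0 hb1 hε hε1 hs.le hn)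
  have h5 : Real.exp (-s) < 1 := Real.exp_lt_one_iff.2 (by linarith)
  linarith only [h4, h5]

end Pool.Agent.Work.MP_636246_an.S
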