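import Mathlib

/-!
Tridiagonal comparison estimates and the price of a long stay near the fixed point.
-/

namespace Pool.Agent.Work.MP_636246_an.S

open Finset

theorem sweep_back {D κ : ℕ → ℝ} {b : ℝ} {l T : ℕ} (hb0 : 0 ≤ b) (hb : b ≤ 1 / 100)
    (hD : ∀ j, 0 ≤ D j) (hκ0 : ∀ j, 0 ≤ κ j) (hκ : ∀ j, κ j ≤ 1 / 10)
    (hrec : ∀ j, l ≤ j → j + 1 < T → (1 + b - κ (j + 1)) * D (j + 1) ≤ D (j + 2) + b * D j)
    (j : ℕ) (hl : l ≤ j) (hT : j + 1 ≤ T) :
    D (j + 1) ≤ D T * Real.exp (3 * ∑ i ∈ Ico (j + 1) T, κ i) + 2 * b * D j := by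
  have key : ∀ r j, l ≤ j → j + 1 + r = T → ∃ θ A : ℝ, 0 ≤ θ ∧ θ ≤ 1 / 4 ∧ 0 ≤ A ∧
      D (j + 1) ≤ A + b * (1 + θ) * D j ∧
      A * Real.exp (θ / 2) ≤ D T * Real.exp (3 * ∑ i ∈ Ico (j + 1) T, κ i) := by
    intro r
    induction r with
    | zero =>
      intro j _ hj
      rw [add_zero] at hj
      refine ⟨0, D T, le_rfl, by norm_num, hD _, ?_, ?_⟩
      · rw [hj]
        have := mul_nonneg hb0 (hD j)
        linarith
      · simp [hj]
    | succ r ih =>
      intro j hlj hj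
      obtain ⟨θ, A, h0, h1, h2, h3, h4⟩ := ih (j + 1) (by omega) (by omega)
      have h5 := hrec j hlj (by omega)
      set w := κ (j + 1) + b * θ with hw
      have hbθ : b * θ ≤ 1 / 400 := by nlinarith
      have hbθ0 : 0 ≤ b * θ := mul_nonneg hb0 h0
      have hw0 : 0 ≤ w := add_nonneg (hκ0 _) hbθ0
      have hw1 : w ≤ 1 / 8 := by linarith [hκ (j + 1)]
      have h6 : (1 - w) * D (j + 1) ≤ A + b * D j := by
        rw [hw]
        have e : j + 1 + 1 = j + 2 := rfl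
        rw [e] at h3
        linarith
      have h7 : D (j + 1) ≤ (1 + 2 * w) * (A + b * D j) := by
        have h8 : (1 + 2 * w) * ((1 - w) * D (j + 1)) ≤ (1 + 2 * w) * (A + b * D j) :=
          mul_le_mul_of_nonneg_left h6 (by linarith)
        have h9 : 0 ≤ w * (1 - 2 * w) * D (j + 1) :=
          mul_nonneg (mul_nonneg hw0 (by linarith)) (hD _)
        linarith
      refine ⟨2 * w, A * (1 + 2 * w), by linarith, by linarith, by positivity, by linarith, ?_⟩
      rw [sum_eq_sum_Ico_succ_bot (by omega : j + 1 < T), mul_add 3, Real.exp_add]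
      have h10 : (1 + 2 * w) * Real.exp (2 * w / 2) ≤
          Real.exp (3 * κ (j + 1)) * Real.exp (θ / 2) := by
        have h11 : 1 + 2 * w ≤ Real.exp (2 * w) := by linarith [Real.add_one_le_exp (2 * w)]
        refine (mul_le_mul_of_nonneg_right h11 (Real.exp_pos _).le).trans ?_
        rw [← Real.exp_add, ← Real.exp_add, Real.exp_le_exp, hw]
        nlinarith
      calc A * (1 + 2 * w) * Real.exp (2 * w / 2) = A * ((1 + 2 * w) * Real.exp (2 * w / 2)) := by
            ring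
        _ ≤ A * (Real.exp (3 * κ (j + 1)) * Real.exp (θ / 2)) := mul_le_mul_of_nonneg_left h10 h2
        _ = Real.exp (3 * κ (j + 1)) * (A * Real.exp (θ / 2)) := by ring
        _ ≤ Real.exp (3 * κ (j + 1)) * (D T * Real.exp (3 * ∑ i ∈ Ico (j + 1 + 1) T, κ i)) :=
            mul_le_mul_of_nonneg_left h4 (Real.exp_pos _).le
        _ = _ := by ring
  obtain ⟨θ, A, h0, h1, h2, h3, h4⟩ := key (T - (j + 1)) j hl (by omega)
  have h5 : A ≤ A * Real.exp (θ / 2) :=
    le_mul_of_one_le_right h2 (Real.one_le_exp (by linarith))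
  have h6 : b * θ * D j ≤ b * 1 * D j :=
    mul_le_mul_of_nonneg_right (mul_le_mul_of_nonneg_left (by linarith) hb0) (hD j)
  linarith

theorem sweep {D κ : ℕ → ℝ} {b : ℝ} {l T : ℕ} (hb0 : 0 ≤ b) (hb : b ≤ 1 / 100)
    (hD : ∀ j, 0 ≤ D j) (hκ0 : ∀ j, 0 ≤ κ j) (hκ : ∀ j, κ j ≤ 1 / 10)
    (hrec : ∀ j, l ≤ j → j + 1 < T → (1 + b - κ (j + 1)) * D (j + 1) ≤ D (j + 2) + b * D j)
    (r : ℕ) (hT : l + r ≤ T) :
    D (l + r) ≤ 2 * D T * Real.exp (3 * ∑ i ∈ Ico (l + r) T, κ i) + (2 * b) ^ r * D l := by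
  induction r with
  | zero =>
    have := mul_nonneg (mul_nonneg zero_le_two (hD T))
      (Real.exp_pos (3 * ∑ i ∈ Ico (l + 0) T, κ i)).le
    simp only [add_zero, pow_zero, one_mul] at this ⊢
    linarith
  | succ r ih =>
    have h1 := ih (by omega)
    have h2 := sweep_back hb0 hb hD hκ0 hκ hrec (l + r) (by omega) (by omega)
    rw [sum_eq_sum_Ico_succ_bot (by omega : l + r < T), mul_add, Real.exp_add] at h1
    have h3 : Real.exp (3 * κ (l + r)) ≤ 3 := by
      have := Real.exp_le_exp.2 (show 3 * κ (l + r) ≤ 1 by linarith [hκ (l + r)])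
      linarith [Real.exp_one_lt_d9]
    set E := Real.exp (3 * ∑ i ∈ Ico (l + r + 1) T, κ i) with hE
    have hE0 : 0 ≤ D T * E := mul_nonneg (hD T) (Real.exp_pos _).le
    have h4 : 2 * D T * (Real.exp (3 * κ (l + r)) * E) ≤ 6 * (D T * E) := by nlinarith
    have h5 : 2 * b * D (l + r) ≤ 2 * b * (6 * (D T * E) + (2 * b) ^ r * D l) :=
      mul_le_mul_of_nonneg_left (by linarith) (by linarith)
    have h6 : 2 * b * (6 * (D T * E)) ≤ D T * E := by nlinarith
    rw [← add_assoc, pow_succ]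
    linarith

/-- Survival function of the law used for the length of a stay. -/
noncomputable def G (K k : ℕ) : ℝ :=
  if k ≤ K then (1 / 2) ^ k else (1 / 2) ^ K / ((k : ℝ) - K + 1)

theorem G_zero (K : ℕ) : G K 0 = 1 := by simp [G]

theorem G_ge {K k : ℕ} (h : K ≤ k) : G K k = (1 / 2) ^ K / ((k : ℝ) - K + 1) := by
  unfold G
  split_ifs with h1
  · rw [le_antisymm h1 h]
    simp
  · rfl

theorem G_pos (K k : ℕ) : 0 < G K k := by
  rcases le_total k K with h | h
  · rw [G, if_pos h]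
    positivity
  · rw [G_ge h]
    have : (K : ℝ) ≤ k := by exact_mod_cast h
    exact div_pos (by positivity) (by linarith)

theorem G_sub_low {K k : ℕ} (h : k + 1 ≤ K) : G K k - G K (k + 1) = (1 / 2) ^ (k + 1) := by
  rw [G, G, if_pos h, if_pos (by omega)]
  ring

theorem G_sub_high {K k : ℕ} (h : K ≤ k) :
    G K k - G K (k + 1) = (1 / 2) ^ K / (((k : ℝ) - K + 1) * ((k : ℝ) - K + 2)) := by
  rw [G_ge h, G_ge (by omega : K ≤ k + 1)]
  have : (K : ℝ) ≤ k := by exact_mod_cast h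
  have h1 : (k : ℝ) - K + 1 ≠ 0 := by linarith
  have h2 : (k : ℝ) - K + 2 ≠ 0 := by linarith
  have h3 : ((k + 1 : ℕ) : ℝ) - K + 1 = (k : ℝ) - K + 2 := by
    push_cast
    ring
  rw [h3]
  field_simp
  ring

theorem G_sub_ge {K : ℕ} (hK : 1 ≤ K) (k : ℕ) :
    (1 / 2) ^ K / ((k : ℝ) + 1) ^ 2 ≤ G K k - G K (k + 1) := by
  have hk : (0 : ℝ) ≤ k := Nat.cast_nonneg k
  rcases le_or_gt (k + 1) K with h | h
  · rw [G_sub_low h]
    refine (div_le_self (by positivity) (by nlinarith)).trans ?_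
    exact pow_le_pow_of_le_one (by norm_num) (by norm_num) h
  · have h' : K ≤ k := by omega
    rw [G_sub_high h']
    have h1 : (K : ℝ) ≤ k := by exact_mod_cast h'
    have h2 : (1 : ℝ) ≤ K := by exact_mod_cast hK
    refine div_le_div_of_nonneg_left (by positivity) (mul_pos (by linarith) (by linarith)) ?_
    nlinarith

theorem G_sub_le (K k : ℕ) : G K k - G K (k + 1) ≤ G K (k + 1) := by
  rcases le_or_gt (k + 1) K with h | h
  · rw [G_sub_low h, G, if_pos h]
  · have h' : K ≤ k := by omega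
    rw [G_sub_high h', G_ge (by omega : K ≤ k + 1)]
    have h1 : (K : ℝ) ≤ k := by exact_mod_cast h'
    push_cast
    refine div_le_div_of_nonneg_left (by positivity) (by linarith) ?_
    nlinarith

/-- A long stay near the fixed point that ends at a definite distance has a large sum. -/
theorem stay_sum {a : ℕ → ℂ} {b e : ℝ} (hb0 : 0 ≤ b) (hb : b ≤ 1 / 100)
    (hrec : ∀ j, a (j + 2) = a (j + 1) ^ 2 + (1 + b) * a (j + 1) - b * a j) {i k : ℕ}
    (hex : e ≤ ‖a (i + k + 2)‖) :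
    k * e / 4 ≤ Real.exp (4 * ∑ j ∈ range (k + 1), ‖a (i + 1 + j)‖) := by
  have hbn : ‖(b : ℂ)‖ = b := by rw [Complex.norm_real, Real.norm_of_nonneg hb0]
  set N : ℕ → ℝ := fun j => max ‖a (j + 1) - b * a j‖ ‖a (j + 1) - a j‖ with hN
  have hN0 : ∀ j, 0 ≤ N j := fun j => le_max_of_le_left (norm_nonneg _)
  have h1 : ∀ j, ‖a (j + 1)‖ ≤ 2 * N j := by
    intro j
    have e1 : a (j + 1) = (a (j + 1) - b * a j) - b * (a (j + 1) - a j) + b * a (j + 1) := by ring
    have e2 : ‖a (j + 1)‖ ≤ ‖a (j + 1) - b * a j‖ + b * ‖a (j + 1) - a j‖ + b * ‖a (j + 1)‖ := by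
      conv_lhs => rw [e1]
      refine (norm_add_le _ _).trans (add_le_add ((norm_sub_le _ _).trans ?_) ?_)
      · rw [norm_mul, hbn]
      · rw [norm_mul, hbn]
    have e3 : ‖a (j + 1) - b * a j‖ ≤ N j := le_max_left _ _
    have e4 : ‖a (j + 1) - a j‖ ≤ N j := le_max_right _ _
    nlinarith [norm_nonneg (a (j + 1)), norm_nonneg (a (j + 1) - a j), hN0 j]
  have h2 : ∀ j, N (j + 1) ≤ Real.exp (2 * ‖a (j + 1)‖) * N j := by
    intro j
    have e3 : ‖a (j + 1) - b * a j‖ ≤ N j := le_max_left _ _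
    have e4 : ‖a (j + 1) - a j‖ ≤ N j := le_max_right _ _
    have e5 : ‖a (j + 1) ^ 2‖ ≤ 2 * ‖a (j + 1)‖ * N j := by
      rw [norm_pow]
      nlinarith [norm_nonneg (a (j + 1)), h1 j]
    have e6 : (1 + 2 * ‖a (j + 1)‖) * N j ≤ Real.exp (2 * ‖a (j + 1)‖) * N j :=
      mul_le_mul_of_nonneg_right (by linarith [Real.add_one_le_exp (2 * ‖a (j + 1)‖)]) (hN0 j)
    refine le_trans (max_le ?_ ?_) e6
    · have e7 : a (j + 1 + 1) - b * a (j + 1) = (a (j + 1) - b * a j) + a (j + 1) ^ 2 := by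
        rw [show j + 1 + 1 = j + 2 from rfl, hrec]
        ring
      rw [e7]
      linarith [norm_add_le (a (j + 1) - b * a j) (a (j + 1) ^ 2)]
    · have e7 : a (j + 1 + 1) - a (j + 1) = b * (a (j + 1) - a j) + a (j + 1) ^ 2 := by
        rw [show j + 1 + 1 = j + 2 from rfl, hrec]
        ring
      rw [e7]
      have := norm_add_le (b * (a (j + 1) - a j)) (a (j + 1) ^ 2)
      rw [norm_mul, hbn] at this
      nlinarith [norm_nonneg (a (j + 1) - a j), hN0 j]
  have h3 : ∀ j, N j ≤ ‖a (j + 1)‖ + ‖a j‖ := by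
    intro j
    refine max_le ((norm_sub_le _ _).trans ?_) (norm_sub_le _ _)
    rw [norm_mul, hbn]
    nlinarith [norm_nonneg (a j)]
  have h4 : ∀ j r, N (j + r) ≤ Real.exp (2 * ∑ t ∈ range r, ‖a (j + 1 + t)‖) * N j := by
    intro j r
    induction r with
    | zero => simp
    | succ r ih =>
      rw [sum_range_succ, mul_add, Real.exp_add, ← add_assoc]
      refine (h2 _).trans ?_
      rw [show j + 1 + r = j + r + 1 by ring, mul_comm (Real.exp _) (Real.exp _), mul_assoc]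
      exact mul_le_mul_of_nonneg_left ih (Real.exp_pos _).le
  set s := ∑ j ∈ range (k + 1), ‖a (i + 1 + j)‖ with hs
  have hs0 : 0 ≤ s := sum_nonneg fun _ _ => norm_nonneg _
  have h5 : ∀ t ∈ range k, e / 2 ≤ Real.exp (2 * s) * N (i + 1 + t) := by
    intro t ht
    have ht' := mem_range.1 ht
    have e1 := h4 (i + 1 + t) (k - t)
    rw [show i + 1 + t + (k - t) = i + k + 1 by omega] at e1
    have e2 := h1 (i + k + 1)
    have e3 : ∑ u ∈ range (k - t), ‖a (i + 1 + t + 1 + u)‖ ≤ s := by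
      rw [hs, show k + 1 = (t + 1) + (k - t) by omega, sum_range_add]
      have : ∀ u, i + 1 + (t + 1 + u) = i + 1 + t + 1 + u := fun u => by ring
      simp only [this]
      exact le_add_of_nonneg_left (sum_nonneg fun _ _ => norm_nonneg _)
    have e4 := mul_le_mul_of_nonneg_right
      (Real.exp_le_exp.2 (mul_le_mul_of_nonneg_left e3 zero_le_two)) (hN0 (i + 1 + t))
    have e5 : i + k + 1 + 1 = i + k + 2 := rfl
    rw [e5] at e2
    linarith
  have h6 : ∑ t ∈ range k, N (i + 1 + t) ≤ 2 * s := by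
    refine (sum_le_sum fun t _ => h3 (i + 1 + t)).trans ?_
    rw [sum_add_distrib]
    have e1 : ∑ t ∈ range k, ‖a (i + 1 + t)‖ ≤ s := by
      rw [hs, sum_range_succ]
      exact le_add_of_nonneg_right (norm_nonneg _)
    have e2 : ∑ t ∈ range k, ‖a (i + 1 + t + 1)‖ ≤ s := by
      rw [hs, sum_range_succ']
      exact le_add_of_nonneg_right (norm_nonneg _)
    linarith
  have h7 := sum_le_sum h5
  rw [sum_const, card_range, nsmul_eq_mul, ← mul_sum] at h7
  have h8 : 2 * s ≤ Real.exp (2 * s) := by linarith [Real.add_one_le_exp (2 * s)]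
  have h9 := mul_le_mul_of_nonneg_left (h6.trans h8) (Real.exp_pos (2 * s)).le
  rw [← Real.exp_add, show 2 * s + 2 * s = 4 * s by ring] at h9
  have h10 := Real.exp_pos (4 * s)
  linarith

/-- Backward lower bound for the last steps of a stay. -/
theorem stay_low {a : ℕ → ℂ} {b e : ℝ} (hb0 : 0 ≤ b) (hb : b ≤ 1 / 100)
    (hrec : ∀ j, a (j + 2) = a (j + 1) ^ 2 + (1 + b) * a (j + 1) - b * a j) (h3 : ∀ j, ‖a j‖ ≤ 3)
    {i σ : ℕ} (hnear : ∀ j, i < j → j ≤ σ → ‖a j‖ ≤ 1 / 2) (hex : e ≤ ‖a (σ + 1)‖) (r j : ℕ)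
    (hj : j + r = σ + 1) (hi : i < j) : (1 / 2) ^ r * e ≤ ‖a j‖ + 3 * b := by
  have hbn : ‖(b : ℂ)‖ = b := by rw [Complex.norm_real, Real.norm_of_nonneg hb0]
  induction r generalizing j with
  | zero =>
    rw [add_zero] at hj
    rw [hj]
    linarith
  | succ r ih =>
    have h1 := ih (j + 1) (by omega) (by omega)
    obtain ⟨j, rfl⟩ : ∃ j', j = j' + 1 := ⟨j - 1, by omega⟩
    have h2 := hnear (j + 1) hi (by omega)
    have h4 : ‖a (j + 2)‖ ≤ 2 * ‖a (j + 1)‖ + 3 * b := by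
      have e1 : a (j + 2) = a (j + 1) * a (j + 1) + a (j + 1) + b * a (j + 1) - b * a j := by
        rw [hrec]
        ring
      rw [e1]
      refine (norm_sub_le _ _).trans ?_
      have e2 := norm_add₃_le (a := a (j + 1) * a (j + 1)) (b := a (j + 1)) (c := b * a (j + 1))
      rw [norm_mul, norm_mul, hbn] at e2
      rw [norm_mul, hbn]
      nlinarith [norm_nonneg (a (j + 1)), h3 j]
    rw [show j + 1 + 1 = j + 2 from rfl] at h1
    rw [pow_succ]
    linarith

/-- The truncated and rescaled modulus. -/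
noncomputable def mw (ε : ℝ) (w : ℂ) : ℝ := min (‖w‖ / ε) 1

theorem mw_nonneg {ε : ℝ} (hε : 0 < ε) (w : ℂ) : 0 ≤ mw ε w :=
  le_min (by positivity) zero_le_one

theorem mw_le (ε : ℝ) (w : ℂ) : mw ε w ≤ 1 := min_le_right _ _

theorem mw_one {ε : ℝ} (hε : 0 < ε) {w : ℂ} (h : ε ≤ ‖w‖) : mw ε w = 1 :=
  min_eq_right ((one_le_div hε).2 h)

/-- The weight collected during a stay that ends at time `σ` pays for the length of the stay. -/
def Pay (s ε e : ℝ) (K : ℕ) (a : ℕ → ℂ) (σ : ℕ) (ζ : ℝ) : Prop :=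
  ∀ i k, i + k + 1 = σ → (∀ j, i < j → j ≤ σ → ‖a j‖ ≤ e) →
    ζ * Real.exp (-∑ j ∈ Ico (i + 1) (σ + 1), (Real.log 2 + 2 * s) * mw ε (a j)) ≤
      G K k - G K (k + 1)

theorem pay_far {s ε e : ℝ} {K : ℕ} {a : ℕ → ℂ} {σ : ℕ} {ζ : ℝ} (h : e < ‖a σ‖) :
    Pay s ε e K a σ ζ := fun i k hi hn => absurd (hn σ (by omega) le_rfl) (not_le.2 h)

theorem pay_top {s ε e : ℝ} {K : ℕ} (hs : 0 ≤ s) (hε : 0 < ε) (hK : 1 ≤ K) (a : ℕ → ℂ) (σ : ℕ) :
    Pay s ε e K a σ ((1 / 2) ^ K / ((σ : ℝ) + 1) ^ 2) := by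
  intro i k hi _
  refine le_trans ?_ (G_sub_ge hK k)
  have h1 : Real.exp (-∑ j ∈ Ico (i + 1) (σ + 1), (Real.log 2 + 2 * s) * mw ε (a j)) ≤ 1 := by
    rw [Real.exp_le_one_iff, neg_nonpos]
    exact sum_nonneg fun j _ => mul_nonneg (by positivity) (mw_nonneg hε _)
  refine (mul_le_of_le_one_right (by positivity) h1).trans ?_
  have h2 : (k : ℝ) ≤ σ := by exact_mod_cast (by omega : k ≤ σ)
  refine div_le_div_of_nonneg_left (by positivity) (by positivity) ?_
  gcongr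

theorem exp_neg_mul_log_two (k : ℕ) : Real.exp (-(k * Real.log 2)) = (1 / 2) ^ k := by
  rw [Real.exp_neg, Real.exp_nat_mul, Real.exp_log (by norm_num), one_div, inv_pow]

theorem pay_exit {a : ℕ → ℂ} {b s ε e : ℝ} {K : ℕ} (hb0 : 0 ≤ b) (hb : b ≤ 1 / 100)
    (hrec : ∀ j, a (j + 2) = a (j + 1) ^ 2 + (1 + b) * a (j + 1) - b * a j) (h3 : ∀ j, ‖a j‖ ≤ 3)
    (hs : 0 < s) (hε : 0 < ε) (he : ε ≤ e) (he1 : e ≤ 1 / 2) (he2 : 8 * e ≤ s) (hK : 1 ≤ K)
    (hεK : ε + 3 * b ≤ (1 / 2) ^ K * (e / 2)) (hsK : 256 ≤ e ^ 2 * Real.exp (s * K))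
    {σ : ℕ} (hex : e / 2 ≤ ‖a (σ + 1)‖) : Pay s ε e K a σ 1 := by
  intro i k hi hn
  have he0 : 0 < e := hε.trans_le he
  have hl2 : 0 < Real.log 2 := Real.log_pos (by norm_num)
  have h1 : ∀ j, i < j → j ≤ σ → σ + 1 ≤ j + K → mw ε (a j) = 1 := by
    intro j h4 h5 h6
    have h7 := stay_low hb0 hb hrec h3 (fun j h8 h9 => (hn j h8 h9).trans he1) hex (σ + 1 - j) j
      (by omega) h4
    have h8 : ((1 : ℝ) / 2) ^ K ≤ (1 / 2) ^ (σ + 1 - j) :=
      pow_le_pow_of_le_one (by norm_num) (by norm_num) (by omega)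
    have h9 := mul_le_mul_of_nonneg_right h8 (show 0 ≤ e / 2 by linarith)
    exact mw_one hε (by linarith)
  rw [one_mul, ← mul_sum]
  set m := ∑ j ∈ Ico (i + 1) (σ + 1), mw ε (a j) with hm
  rcases le_or_gt (k + 1) K with h | h
  · have h2 : m = (k + 1 : ℕ) := by
      rw [hm, sum_congr rfl fun j hj => h1 j (mem_Ico.1 hj).1 (by have := (mem_Ico.1 hj).2; omega)
        (by have := (mem_Ico.1 hj).1; omega), sum_const, Nat.card_Ico, nsmul_eq_mul, mul_one]
      congr 1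
      omega
    rw [G_sub_low h, ← exp_neg_mul_log_two, Real.exp_le_exp, h2]
    have : (0 : ℝ) ≤ s * ((k + 1 : ℕ) : ℝ) := by positivity
    linarith
  · refine le_trans ?_ (G_sub_ge hK k)
    have h2 : (K : ℝ) ≤ m := by
      calc (K : ℝ) = ∑ j ∈ Ico (σ + 1 - K) (σ + 1), mw ε (a j) := by
            rw [sum_congr rfl fun j hj => h1 j (by have := (mem_Ico.1 hj).1; omega)
              (by have := (mem_Ico.1 hj).2; omega)
              (by have := (mem_Ico.1 hj).1; omega), sum_const, Nat.card_Ico, nsmul_eq_mul, mul_one]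
            congr 1
            omega
        _ ≤ m := sum_le_sum_of_subset_of_nonneg (Ico_subset_Ico (by omega) le_rfl)
            fun j _ _ => mw_nonneg hε _
    set t := ∑ j ∈ range (k + 1), ‖a (i + 1 + j)‖ with ht
    have h4 : t ≤ e * m := by
      rw [hm, sum_Ico_eq_sum_range, show σ + 1 - (i + 1) = k + 1 by omega, mul_sum]
      refine sum_le_sum fun j hj => ?_
      have h5 := hn (i + 1 + j) (by omega) (by have := mem_range.1 hj; omega)
      rw [mw, mul_min_of_nonneg _ _ he0.le]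
      refine le_min ?_ (by linarith)
      rw [← mul_div_assoc, le_div_iff₀ hε]
      nlinarith [norm_nonneg (a (i + 1 + j))]
    have h5 : k * (e / 2) / 4 ≤ Real.exp (4 * t) :=
      stay_sum hb0 hb hrec (by rwa [show i + k + 2 = σ + 1 by omega])
    have hm0 : 0 ≤ m := (Nat.cast_nonneg K).trans h2
    have h6 : K * Real.log 2 + s * K + (4 * t + 4 * t) ≤ (Real.log 2 + 2 * s) * m := by
      nlinarith
    have hk1 : (1 : ℝ) ≤ k := by exact_mod_cast (by omega : 1 ≤ k)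
    have h7 : ((k : ℝ) + 1) ^ 2 ≤ Real.exp (s * K + (4 * t + 4 * t)) := by
      rw [Real.exp_add, Real.exp_add]
      have h8 : (k * (e / 2) / 4) * (k * (e / 2) / 4) ≤ Real.exp (4 * t) * Real.exp (4 * t) :=
        mul_self_le_mul_self (by positivity) h5
      have h9 := mul_le_mul_of_nonneg_left h8 (Real.exp_pos (s * K)).le
      have h10 := mul_le_mul_of_nonneg_left hsK (show (0 : ℝ) ≤ k ^ 2 / 64 by positivity)
      nlinarith
    rw [le_div_iff₀ (by positivity), ← exp_neg_mul_log_two]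
    refine (mul_le_mul_of_nonneg_left h7 (Real.exp_pos _).le).trans ?_
    rw [← Real.exp_add, Real.exp_le_exp]
    linarith

end Pool.Agent.Work.MP_636246_an.S
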