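import Pool.Agent.Work.MP_636246_an.S.Cov
import Pool.Agent.Work.MP_636246_an.S.Sw
import Pool.Agent.Work.MP_636246_an.S.Dyn

/-!
Backward coding of orbits by inverse branches.
-/

namespace Pool.Agent.Work.MP_636246_an.S

open Finset

/-- Bounded solutions of the recurrence that avoid the inner part of the parabolic basin. -/
def Good (b η : ℝ) (a : ℕ → ℂ) : Prop :=
  (∀ j, a (j + 2) = a (j + 1) ^ 2 + (1 + b) * a (j + 1) - b * a j) ∧ (∀ j, ‖a j‖ ≤ 3) ∧
    ∀ j, 1 + b - η ≤ ‖2 * a j + 1 + (b : ℂ)‖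

theorem Good.six {b η : ℝ} {a a' : ℕ → ℂ} (h : Good b η a) (h' : Good b η a') (j : ℕ) :
    ‖a j - a' j‖ ≤ 6 := by
  linarith [norm_sub_le (a j) (a' j), h.2.1 j, h'.2.1 j]

theorem Good.prod {b η : ℝ} (hb0 : 0 ≤ b) {a a' : ℕ → ℂ} (h : Good b η a) (h' : Good b η a')
    (j : ℕ) : ‖a (j + 1) + a' (j + 1) + 1 + (b : ℂ)‖ * ‖a (j + 1) - a' (j + 1)‖ ≤
      ‖a (j + 2) - a' (j + 2)‖ + b * ‖a j - a' j‖ := by
  have e : (a (j + 1) + a' (j + 1) + 1 + (b : ℂ)) * (a (j + 1) - a' (j + 1)) =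
      (a (j + 2) - a' (j + 2)) + b * (a j - a' j) := by
    rw [h.1, h'.1]
    ring
  rw [← norm_mul, e]
  refine (norm_add_le _ _).trans ?_
  rw [norm_mul, nb hb0]

theorem Good.step {b η κ : ℝ} (hb0 : 0 ≤ b) {a a' : ℕ → ℂ} (h : Good b η a) (h' : Good b η a')
    (j : ℕ) (hκ : min η (2 * ‖a (j + 1)‖) + ‖a (j + 1) - a' (j + 1)‖ ≤ κ) :
    (1 + b - κ) * ‖a (j + 1) - a' (j + 1)‖ ≤ ‖a (j + 2) - a' (j + 2)‖ + b * ‖a j - a' j‖ := by
  refine le_trans (mul_le_mul_of_nonneg_right ?_ (norm_nonneg _)) (h.prod hb0 h' j)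
  have e : 2 * a (j + 1) + 1 + (b : ℂ) =
      (a (j + 1) + a' (j + 1) + 1 + (b : ℂ)) + (a (j + 1) - a' (j + 1)) := by ring
  have h1 := norm_add_le (a (j + 1) + a' (j + 1) + 1 + (b : ℂ)) (a (j + 1) - a' (j + 1))
  rw [← e] at h1
  have h2 := h.2.2 (j + 1)
  have h3 := norm_sub_le (2 * a (j + 1) + 1 + (b : ℂ)) (2 * a (j + 1))
  rw [show 2 * a (j + 1) + 1 + (b : ℂ) - 2 * a (j + 1) = ((1 + b : ℝ) : ℂ) by push_cast; ring,
    nb (by linarith), norm_mul, Complex.norm_two] at h3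
  rcases min_choice η (2 * ‖a (j + 1)‖) with h4 | h4 <;> rw [h4] at hκ <;> linarith

/-- The numerical conditions on the parameters of the coding. -/
structure Par (b η c e ε s δ τ : ℝ) (M : ℕ) : Prop where
  b0 : 0 ≤ b
  b1 : b ≤ 1 / 100
  η0 : 0 ≤ η
  ηc : η + c ≤ 1 / 10
  τc : τ ≤ c
  ce : 2 * c ≤ e
  ε0 : 0 < ε
  εe : 2 * ε ≤ e
  eb : e + 3 * b ≤ 1 / 50
  s0 : 0 ≤ s
  δ0 : 0 < δ
  M1 : 1 ≤ M
  δb : 6 * (2 * b) ^ M ≤ δ
  δτ : 5 * δ * Real.exp (3 / 5 * M) ≤ τ
  δc : 2 * δ * Real.exp (3 / 5 * M) + 18 * b ≤ c / 5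

theorem exp_crude {j T M : ℕ} (h : T ≤ j + 2 * M) :
    Real.exp (3 * ∑ _i ∈ Ico j T, (1 / 10 : ℝ)) ≤ Real.exp (3 / 5 * M) := by
  rw [Real.exp_le_exp, sum_const, Nat.card_Ico, nsmul_eq_mul]
  have : ((T - j : ℕ) : ℝ) ≤ 2 * M := by exact_mod_cast (by omega : T - j ≤ 2 * M)
  linarith

section
variable {b η c e ε s δ τ : ℝ} {M : ℕ} (P : Par b η c e ε s δ τ M)
variable {a a' : ℕ → ℂ} (h : Good b η a) (h' : Good b η a') {l T : ℕ}
  (hc : ∀ j, l < j → j ≤ T → ‖a j - a' j‖ ≤ c) (hT : ‖a T - a' T‖ ≤ 2 * δ)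
include P h h' hc hT

theorem crude_fine (hTM : T ≤ l + 1 + 2 * M) (j : ℕ) (h1 : l + 1 + M ≤ j) (h2 : j ≤ T) :
    ‖a j - a' j‖ ≤ τ := by
  obtain ⟨r, rfl⟩ : ∃ r, j = l + r := ⟨j - l, by omega⟩
  have h3 := sweep (D := fun j => ‖a j - a' j‖) (κ := fun _ => 1 / 10) (l := l) (T := T) P.b0 P.b1
    (fun _ => norm_nonneg _) (fun _ => by norm_num) (fun _ => le_rfl)
    (fun j h3 h4 => h.step P.b0 h' j (by
      linarith [min_le_left η (2 * ‖a (j + 1)‖), hc (j + 1) (by omega) (by omega), P.ηc])) r h2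
  have h4 := exp_crude (j := l + r) (T := T) (M := M) (by omega)
  have h5 : (2 * b) ^ r ≤ (2 * b) ^ M :=
    pow_le_pow_of_le_one (by linarith [P.b0]) (by linarith [P.b1]) (by omega)
  have h6 := mul_le_mul h5 (h.six h' l) (norm_nonneg _) (pow_nonneg (by linarith [P.b0]) _)
  have h7 := mul_le_mul hT h4 (Real.exp_pos _).le (by linarith [P.δ0])
  have h8 : 1 ≤ Real.exp (3 / 5 * M) := Real.one_le_exp (by positivity)
  have h9 := mul_le_mul_of_nonneg_left h8 P.δ0.le
  linarith [P.δb, P.δτ]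

theorem sharp_fine (hTM : T = l + 1 + 2 * M) :
    ‖a (l + 1 + M) - a' (l + 1 + M)‖ ≤
      δ * (5 * Real.exp (3 * ∑ j ∈ Ico (l + 1 + M) T, (min η (2 * ‖a j‖) + τ))) := by
  have hτ0 : 0 ≤ τ := le_trans (by have := P.δ0; positivity) P.δτ
  have hm0 : ∀ j, 0 ≤ min η (2 * ‖a j‖) := fun j => le_min P.η0 (by positivity)
  have h3 := sweep (D := fun j => ‖a j - a' j‖)
    (κ := fun j => if l + 1 + M ≤ j then min η (2 * ‖a j‖) + τ else 1 / 10) (l := l) (T := T)
    P.b0 P.b1 (fun _ => norm_nonneg _)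
    (fun j => by
      split_ifs
      · exact add_nonneg (hm0 j) hτ0
      · norm_num)
    (fun j => by
      split_ifs
      · linarith [min_le_left η (2 * ‖a j‖), P.ηc, P.τc]
      · exact le_rfl)
    (fun j h3 h4 => h.step P.b0 h' j (by
      split_ifs with h5
      · linarith [crude_fine P h h' hc hT hTM.le (j + 1) h5 (by omega)]
      · linarith [min_le_left η (2 * ‖a (j + 1)‖), hc (j + 1) (by omega) (by omega), P.ηc]))
    (1 + M) (by omega)
  rw [← add_assoc, sum_congr rfl fun j hj => if_pos (mem_Ico.1 hj).1] at h3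
  have h5 : (2 * b) ^ (1 + M) ≤ (2 * b) ^ M :=
    pow_le_pow_of_le_one (by linarith [P.b0]) (by linarith [P.b1]) (by omega)
  have h6 := mul_le_mul h5 (h.six h' l) (norm_nonneg _) (pow_nonneg (by linarith [P.b0]) _)
  set E := Real.exp (3 * ∑ j ∈ Ico (l + 1 + M) T, (min η (2 * ‖a j‖) + τ)) with hE
  have h8 : 1 ≤ E := Real.one_le_exp
    (mul_nonneg (by norm_num) (sum_nonneg fun j _ => add_nonneg (hm0 j) hτ0))
  have h7 := mul_le_mul_of_nonneg_right hT (zero_le_one.trans h8)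
  have h9 := mul_le_mul_of_nonneg_left h8 P.δ0.le
  linarith [P.δb]

theorem branch_prod {l₀ : ℕ} (hl : l = l₀ + 1) (hlT : l + 1 ≤ T) (hTM : T ≤ l + 1 + 2 * M) :
    ‖a l + a' l + 1 + (b : ℂ)‖ * ‖a l - a' l‖ ≤ c / 5 := by
  have h3 := sweep_back (D := fun j => ‖a j - a' j‖) (κ := fun _ => 1 / 10) (l := l) (T := T)
    P.b0 P.b1 (fun _ => norm_nonneg _) (fun _ => by norm_num) (fun _ => le_rfl)
    (fun j h3 h4 => h.step P.b0 h' j (by
      linarith [min_le_left η (2 * ‖a (j + 1)‖), hc (j + 1) (by omega) (by omega), P.ηc]))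
    l le_rfl hlT
  have h4 := exp_crude (j := l + 1) (T := T) (M := M) hTM
  have h7 := mul_le_mul hT h4 (Real.exp_pos _).le (by linarith [P.δ0])
  subst hl
  have h5 := h.prod P.b0 h' l₀
  have h6 := mul_le_mul_of_nonneg_left (h.six h' l₀) P.b0
  have h8 := mul_le_mul_of_nonneg_left (h.six h' (l₀ + 1)) P.b0
  have e : l₀ + 1 + 1 = l₀ + 2 := rfl
  simp only [e] at h3 h7
  linarith [P.δc]

end

theorem close_of_prod {p d c : ℝ} (hp : 2 / 5 ≤ p) (hd : 0 ≤ d) (h : p * d ≤ c / 5) : d ≤ c / 2 := by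
  nlinarith

/-- The weight carried through the induction. -/
noncomputable def Wt (η ε s τ : ℝ) (M K : ℕ) (a : ℕ → ℂ) (B ζ : ℝ) (T σ k : ℕ) : ℝ :=
  ζ * B * Real.exp (-(∑ j ∈ range T, (12 * (min η (2 * ‖a j‖) + τ) + 12 / M)) -
    ∑ j ∈ range (σ + 1), (Real.log 2 + 2 * s) * mw ε (a j)) / G K k

theorem Wt_nonneg {η ε s τ : ℝ} {M K : ℕ} {a : ℕ → ℂ} {B ζ : ℝ} (hB : 0 ≤ B) (hζ : 0 ≤ ζ)
    (T σ k : ℕ) : 0 ≤ Wt η ε s τ M K a B ζ T σ k :=
  div_nonneg (by positivity) (G_pos _ _).le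

theorem Wt_split {η ε s τ : ℝ} {M K : ℕ} {a : ℕ → ℂ} {B ζ : ℝ} {T σ k l : ℕ} (hl : l ≤ σ) :
    Wt η ε s τ M K a B ζ T σ k =
      ζ * Real.exp (-∑ j ∈ Ico (l + 1) (σ + 1), (Real.log 2 + 2 * s) * mw ε (a j)) / G K k *
        Wt η ε s τ M K a B 1 T l 0 := by
  unfold Wt
  rw [← sum_range_add_sum_Ico _ (by omega : l + 1 ≤ σ + 1), G_zero, ← sub_sub, sub_eq_add_neg,
    Real.exp_add]
  ring

theorem pay_run {s ε e ζ : ℝ} {K : ℕ} {a : ℕ → ℂ} {i k : ℕ} (hζ : ζ ≤ 1)
    (hp : Pay s ε e K a (i + k) ζ) (hn : ∀ j, i < j → j ≤ i + k → ‖a j‖ ≤ e) :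
    ζ * Real.exp (-∑ j ∈ Ico (i + 1) (i + k + 1), (Real.log 2 + 2 * s) * mw ε (a j)) / G K k ≤ 1 := by
  rw [div_le_one (G_pos _ _)]
  cases k with
  | zero => simpa [G_zero] using hζ
  | succ k => exact (hp i k rfl hn).trans (G_sub_le K k)

theorem coding {X A : Type} [Fintype A] {it : X → A} {b η c e ε s δ τ : ℝ} {M K N : ℕ}
    (P : Par b η c e ε s δ τ M) (hK : 1 ≤ K) (a : X → ℕ → ℂ) (B : X → ℝ) (hB : ∀ x, 0 ≤ B x)
    (hpay : ∀ x, Good b η (a x) → ∀ σ, e / 2 ≤ ‖a x (σ + 1)‖ → Pay s ε e K (a x) σ 1)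
    (hbase : ∀ S : Set X, (∀ x ∈ S, ∀ x' ∈ S, ∀ j, 2 * M ≤ j → j ≤ N → ‖a x j - a x' j‖ ≤ τ) →
      Cov it S B)
    (m : ℕ) : ∀ (l T k : ℕ) (ζ : ℝ) (S : Set X), l + T ≤ m → l + 1 ≤ T → T ≤ N →
      T ≤ l + 1 + 2 * M → 0 ≤ ζ → ζ ≤ 1 → (∀ x ∈ S, Good b η (a x)) →
      (∀ x ∈ S, ∀ x' ∈ S, ∀ j, l < j → j ≤ N → ‖a x j - a x' j‖ ≤ c) →
      (∀ x ∈ S, ∀ x' ∈ S, ‖a x T - a x' T‖ ≤ 2 * δ) →
      (∀ x ∈ S, ∀ x' ∈ S, ∀ j, T ≤ j → j ≤ N → ‖a x j - a x' j‖ ≤ τ) →
      (∀ x ∈ S, ∀ j, l + 1 < j → j ≤ l + 1 + k → ‖a x j‖ ≤ e) →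
      (∀ x ∈ S, Pay s ε e K (a x) (l + 1 + k) ζ) →
      Cov it S fun x => Wt η ε s τ M K (a x) (B x) ζ T (l + 1 + k) k := by
  have hτ0 : 0 ≤ τ := le_trans (by have := P.δ0; positivity) P.δτ
  have hM : (0 : ℝ) < M := by exact_mod_cast P.M1
  have hl2 : 0 < Real.log 2 := Real.log_pos (by norm_num)
  induction m with
  | zero =>
    intro l T k ζ S h1 h2
    omega
  | succ m ih =>
    intro l T k ζ S hm hlT hTN hTM hζ0 hζ1 hG H1 H2 H3 H4 H5
    have H1' : ∀ x ∈ S, ∀ x' ∈ S, ∀ j, l < j → j ≤ T → ‖a x j - a x' j‖ ≤ c :=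
      fun x hx x' hx' j h1 h2 => H1 x hx x' hx' j h1 (h2.trans hTN)
    have hM1 := P.M1
    rcases hTM.eq_or_lt with hE | hlt
    · -- refine the position at time `l + 1 + M`
      refine (cov_off2 (g := fun x => a x (l + 1 + M)) (B := 3)
        (R := fun x => 5 * Real.exp (3 * ∑ j ∈ Ico (l + 1 + M) T, (min η (2 * ‖a x j‖) + τ)))
        (W := fun x => Wt η ε s τ M K (a x) (B x) ζ (l + 1 + M) (l + 1 + k) k) P.δ0
        (fun x hx => (hG x hx).2.1 _)
        (fun x hx x' hx' => sharp_fine P (hG x hx) (hG x' hx') (H1' x hx x' hx') (H2 x hx x' hx') hE)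
        (fun x _ => Wt_nonneg (hB x) hζ0 _ _ _) fun S' hS' h2 => ?_).mono fun x hx => ?_
      · refine ih l (l + 1 + M) k ζ S' (by omega) (by omega) (by omega) (by omega) hζ0 hζ1
          (fun x hx => hG x (hS' hx)) (fun x hx x' hx' => H1 x (hS' hx) x' (hS' hx')) h2
          (fun x hx x' hx' j h3 h4 => ?_) (fun x hx => H4 x (hS' hx)) fun x hx => H5 x (hS' hx)
        rcases le_total j T with h5 | h5
        · exact crude_fine P (hG x (hS' hx)) (hG x' (hS' hx')) (H1' x (hS' hx) x' (hS' hx'))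
            (H2 x (hS' hx) x' (hS' hx')) hTM j h3 h5
        · exact H3 x (hS' hx) x' (hS' hx') j h5 h4
      · set t := ∑ j ∈ Ico (l + 1 + M) T, (min η (2 * ‖a x j‖) + τ) with ht
        have ht0 : 0 ≤ t := sum_nonneg fun j _ => add_nonneg (le_min P.η0 (by positivity)) hτ0
        have h1 : ∑ j ∈ Ico (l + 1 + M) T, (12 * (min η (2 * ‖a x j‖) + τ) + 12 / M) =
            12 * t + 12 := by
          rw [sum_add_distrib, ← mul_sum, sum_const, Nat.card_Ico, nsmul_eq_mul,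
            show T - (l + 1 + M) = M by omega, ← ht, mul_div_cancel₀ _ hM.ne']
        have h2 : Wt η ε s τ M K (a x) (B x) ζ T (l + 1 + k) k =
            Wt η ε s τ M K (a x) (B x) ζ (l + 1 + M) (l + 1 + k) k / Real.exp (12 * t + 12) := by
          unfold Wt
          rw [← sum_range_add_sum_Ico _ (by omega : l + 1 + M ≤ T), h1, div_right_comm,
            mul_div_assoc _ _ (Real.exp _), ← Real.exp_sub]
          congr 3
          ring
        rw [h2]
        refine div_le_div_of_nonneg_left (Wt_nonneg (hB x) hζ0 _ _ _) (by positivity) ?_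
        have h3 : 1 ≤ Real.exp (3 * t) := Real.one_le_exp (by positivity)
        have h4 : (7 : ℝ) ≤ Real.exp 3 := by
          have := Real.quadratic_le_exp_of_nonneg (show (0 : ℝ) ≤ 3 by norm_num)
          linarith
        rw [show 12 * t + 12 = (4 : ℕ) * (3 * t + 3) by push_cast; ring, Real.exp_nat_mul,
          Real.exp_add]
        refine pow_le_pow_left₀ (by positivity) ?_ 4
        nlinarith
    · cases l with
      | zero =>
        refine (hbase S fun x hx x' hx' j h1 h2 => H3 x hx x' hx' j (by omega) h2).mono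
          fun x hx => ?_
        rw [Wt_split (l := 0 + 1) (by omega)]
        refine (mul_le_of_le_one_left (Wt_nonneg (hB x) zero_le_one _ _ _)
          (pay_run hζ1 (H5 x hx) (H4 x hx))).trans ?_
        unfold Wt
        rw [G_zero, div_one, one_mul]
        refine mul_le_of_le_one_right (hB x) (Real.exp_le_one_iff.2 ?_)
        have h1 : 0 ≤ ∑ j ∈ range T, (12 * (min η (2 * ‖a x j‖) + τ) + 12 / M) :=
          sum_nonneg fun j _ => add_nonneg
            (mul_nonneg (by norm_num) (add_nonneg (le_min P.η0 (by positivity)) hτ0)) (by positivity)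
        have h2 : 0 ≤ ∑ j ∈ range (0 + 1 + 1), (Real.log 2 + 2 * s) * mw ε (a x j) :=
          sum_nonneg fun j _ => mul_nonneg (by linarith [P.s0]) (mw_nonneg P.ε0 _)
        linarith
      | succ l =>
        have hpr : ∀ x ∈ S, ∀ x' ∈ S, ‖a x (l + 1) + a x' (l + 1) + 1 + (b : ℂ)‖ *
            ‖a x (l + 1) - a x' (l + 1)‖ ≤ c / 5 := fun x hx x' hx' =>
          branch_prod P (hG x hx) (hG x' hx') (H1' x hx x' hx') (H2 x hx x' hx') rfl hlT hTM
        have hc0 : 0 ≤ c := hτ0.trans P.τc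
        -- every subset on which the new coordinate is controlled is covered by induction
        have sub : ∀ (k' : ℕ) (ζ' : ℝ) (S' : Set X), S' ⊆ S → 0 ≤ ζ' → ζ' ≤ 1 →
            (∀ x ∈ S', ∀ x' ∈ S', ‖a x (l + 1) - a x' (l + 1)‖ ≤ c) →
            (∀ x ∈ S', ∀ j, l + 1 < j → j ≤ l + 1 + k' → ‖a x j‖ ≤ e) →
            (∀ x ∈ S', Pay s ε e K (a x) (l + 1 + k') ζ') →
            Cov it S' fun x => Wt η ε s τ M K (a x) (B x) ζ' T (l + 1 + k') k' := by
          intro k' ζ' S' hS' h1 h2 h3 h4 h5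
          refine ih l T k' ζ' S' (by omega) (by omega) hTN (by omega) h1 h2
            (fun x hx => hG x (hS' hx)) (fun x hx x' hx' j h6 h7 => ?_)
            (fun x hx x' hx' => H2 x (hS' hx) x' (hS' hx'))
            (fun x hx x' hx' => H3 x (hS' hx) x' (hS' hx')) h4 h5
          rcases (show j = l + 1 ∨ l + 1 < j by omega) with rfl | h8
          · exact h3 x hx x' hx'
          · exact H1 x (hS' hx) x' (hS' hx') j h8 h7
        by_cases hn : ∀ x ∈ S, ‖a x (l + 1 + 1)‖ ≤ e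
        · -- near the fixed point
          have hb1 : ‖(1 + b : ℂ)‖ = 1 + b := by
            rw [show (1 + b : ℂ) = ((1 + b : ℝ) : ℂ) by push_cast; rfl, nb (by linarith [P.b0])]
          have hnear : ∀ x ∈ S, ∀ j, l + 1 < j → j ≤ l + 1 + (k + 1) → ‖a x j‖ ≤ e := by
            intro x hx j h1 h2
            rcases (show j = l + 1 + 1 ∨ l + 1 + 1 < j by omega) with rfl | h3
            · exact hn x hx
            · exact H4 x hx j h3 (by omega)
          have hjump : ∀ x ∈ S, 1 / 10 < ‖a x (l + 1)‖ → ‖a x (l + 1) + 1 + (b : ℂ)‖ ≤ 1 / 5 := by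
            intro x hx h1
            have e1 : a x (l + 1) * (a x (l + 1) + 1 + (b : ℂ)) = a x (l + 2) + b * a x l := by
              rw [(hG x hx).1]
              ring
            have h2 := norm_add_le (a x (l + 2)) (b * a x l)
            rw [← e1, norm_mul, norm_mul, nb P.b0] at h2
            have h3 := mul_le_mul_of_nonneg_left ((hG x hx).2.1 l) P.b0
            have h4 : ‖a x (l + 2)‖ ≤ e := hn x hx
            nlinarith [P.eb, norm_nonneg (a x (l + 1) + 1 + (b : ℂ))]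
          have hG0 := G_pos K k
          have hG1 := G_pos K (k + 1)
          have hG2 : 0 ≤ G K k - G K (k + 1) := le_trans (by positivity) (G_sub_ge hK k)
          refine cov_two (p₁ := G K (k + 1) / G K k) (p₂ := (G K k - G K (k + 1)) / G K k)
            (by positivity) (by positivity) (le_of_eq (by field_simp; ring))
            (sub (k + 1) ζ {x | x ∈ S ∧ ‖a x (l + 1)‖ ≤ 1 / 10} (fun x hx => hx.1) hζ0 hζ1
              (fun x hx x' hx' => ?_) (fun x hx => hnear x hx.1) fun x hx => ?_)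
            (sub 0 1 {x | x ∈ S ∧ 1 / 10 < ‖a x (l + 1)‖} (fun x hx => hx.1) zero_le_one le_rfl
              (fun x hx x' hx' => ?_) (fun x hx j h1 h2 => by omega) fun x hx => ?_)
            fun x hx => ?_
          · refine (close_of_prod ?_ (norm_nonneg _) (hpr x hx.1 x' hx'.1)).trans (by linarith)
            have h1 := norm_sub_le (a x (l + 1) + a x' (l + 1) + 1 + (b : ℂ))
              (a x (l + 1) + a x' (l + 1))
            rw [show a x (l + 1) + a x' (l + 1) + 1 + (b : ℂ) - (a x (l + 1) + a x' (l + 1)) =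
              1 + b by ring, hb1] at h1
            linarith [norm_add_le (a x (l + 1)) (a x' (l + 1)), hx.2, hx'.2, P.b0]
          · rw [show l + 1 + (k + 1) = l + 1 + 1 + k by ring]
            exact H5 x hx.1
          · refine (close_of_prod ?_ (norm_nonneg _) (hpr x hx.1 x' hx'.1)).trans (by linarith)
            have h1 := norm_sub_le ((a x (l + 1) + 1 + (b : ℂ)) + (a x' (l + 1) + 1 + (b : ℂ)))
              (a x (l + 1) + a x' (l + 1) + 1 + (b : ℂ))
            rw [show (a x (l + 1) + 1 + (b : ℂ)) + (a x' (l + 1) + 1 + (b : ℂ)) -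
              (a x (l + 1) + a x' (l + 1) + 1 + (b : ℂ)) = 1 + b by ring, hb1] at h1
            linarith [norm_add_le (a x (l + 1) + 1 + (b : ℂ)) (a x' (l + 1) + 1 + (b : ℂ)),
              hjump x hx.1 hx.2, hjump x' hx'.1 hx'.2, P.b0]
          · exact pay_far (by linarith [hx.2, P.eb, P.b0, show ‖a x (l + 1 + 0)‖ = ‖a x (l + 1)‖ from rfl])
          · rcases le_or_gt ‖a x (l + 1)‖ (1 / 10) with h1 | h1
            · refine Or.inl ⟨⟨hx, h1⟩, le_of_eq ?_⟩
              rw [show l + 1 + (k + 1) = l + 1 + 1 + k by ring]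
              unfold Wt
              rw [div_mul_div_comm, mul_comm (G K k), mul_div_mul_left _ _ hG1.ne']
            · refine Or.inr ⟨⟨hx, h1⟩, ?_⟩
              rw [Wt_split (l := l + 1) (by omega)]
              refine mul_le_mul_of_nonneg_right (div_le_div_of_nonneg_right ?_ hG0.le)
                (Wt_nonneg (hB x) zero_le_one _ _ _)
              exact H5 x hx (l + 1) k (by ring) fun j h2 h3 => hnear x hx j h2 (by omega)
        · -- far from the fixed point
          push Not at hn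
          obtain ⟨x₀, hx₀, hn⟩ := hn
          have hfar : ∀ x ∈ S, e / 2 ≤ ‖a x (l + 1 + 1)‖ := by
            intro x hx
            have h1 := H1 x₀ hx₀ x hx (l + 1 + 1) (by omega) (by omega)
            linarith [norm_sub_norm_le (a x₀ (l + 1 + 1)) (a x (l + 1 + 1)), P.ce]
          have hsum : ∀ x, 4 / 5 ≤ ‖a x (l + 1) + a x₀ (l + 1) + 1 + (b : ℂ)‖ +
              ‖a x (l + 1) - a x₀ (l + 1)‖ := by
            intro x
            have h1 := norm_sub_le (a x (l + 1) + a x₀ (l + 1) + 1 + (b : ℂ))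
              (a x (l + 1) - a x₀ (l + 1))
            rw [show a x (l + 1) + a x₀ (l + 1) + 1 + (b : ℂ) - (a x (l + 1) - a x₀ (l + 1)) =
              2 * a x₀ (l + 1) + 1 + b by ring] at h1
            linarith [(hG x₀ hx₀).2.2 (l + 1), P.b0, P.ηc]
          have hW : ∀ x ∈ S, Wt η ε s τ M K (a x) (B x) ζ T (l + 1 + 1 + k) k ≤
              1 / 2 * Wt η ε s τ M K (a x) (B x) 1 T (l + 1 + 0) 0 := by
            intro x hx
            rw [Wt_split (l := l + 1) (by omega)]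
            refine mul_le_mul_of_nonneg_right ?_ (Wt_nonneg (hB x) zero_le_one _ _ _)
            rw [sum_eq_sum_Ico_succ_bot (by omega : l + 1 + 1 < l + 1 + 1 + k + 1),
              mw_one P.ε0 (by linarith [hfar x hx, P.εe]), neg_add, Real.exp_add]
            have h1 := pay_run hζ1 (H5 x hx) (H4 x hx)
            have h2 : Real.exp (-((Real.log 2 + 2 * s) * 1)) ≤ 1 / 2 := by
              have := exp_neg_mul_log_two 1
              rw [pow_one] at this
              rw [← this, Real.exp_le_exp]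
              push_cast
              linarith [P.s0]
            have h3 := mul_le_mul h2 h1 (div_nonneg (by positivity) (G_pos _ _).le) (by norm_num)
            refine le_trans (le_of_eq ?_) (h3.trans_eq (mul_one _))
            ring
          refine cov_two (p₁ := 1 / 2) (p₂ := 1 / 2) (by norm_num) (by norm_num) (by norm_num)
            (sub 0 1 {x | x ∈ S ∧ 2 / 5 ≤ ‖a x (l + 1) + a x₀ (l + 1) + 1 + (b : ℂ)‖}
              (fun x hx => hx.1) zero_le_one le_rfl
              (fun x hx x' hx' => ?_) (fun x hx j h1 h2 => by omega)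
              fun x hx => hpay x (hG x hx.1) _ (hfar x hx.1))
            (sub 0 1 {x | x ∈ S ∧ 2 / 5 ≤ ‖a x (l + 1) - a x₀ (l + 1)‖}
              (fun x hx => hx.1) zero_le_one le_rfl
              (fun x hx x' hx' => ?_) (fun x hx j h1 h2 => by omega)
              fun x hx => hpay x (hG x hx.1) _ (hfar x hx.1))
            fun x hx => ?_
          · have h1 := close_of_prod hx.2 (norm_nonneg _) (hpr x hx.1 x₀ hx₀)
            have h2 := close_of_prod hx'.2 (norm_nonneg _) (hpr x' hx'.1 x₀ hx₀)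
            have h3 := norm_sub_le (a x (l + 1) - a x₀ (l + 1)) (a x' (l + 1) - a x₀ (l + 1))
            rw [sub_sub_sub_cancel_right] at h3
            linarith
          · have h1 := close_of_prod hx.2 (norm_nonneg _) ((mul_comm _ _).trans_le (hpr x hx.1 x₀ hx₀))
            have h2 := close_of_prod hx'.2 (norm_nonneg _)
              ((mul_comm _ _).trans_le (hpr x' hx'.1 x₀ hx₀))
            have h3 := norm_sub_le (a x (l + 1) + a x₀ (l + 1) + 1 + (b : ℂ))
              (a x' (l + 1) + a x₀ (l + 1) + 1 + (b : ℂ))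
            rw [show a x (l + 1) + a x₀ (l + 1) + 1 + (b : ℂ) -
              (a x' (l + 1) + a x₀ (l + 1) + 1 + (b : ℂ)) = a x (l + 1) - a x' (l + 1) by ring] at h3
            linarith
          · rcases le_or_gt (2 / 5) ‖a x (l + 1) + a x₀ (l + 1) + 1 + (b : ℂ)‖ with h1 | h1
            · exact Or.inl ⟨⟨hx, h1⟩, hW x hx⟩
            · exact Or.inr ⟨⟨hx, by linarith [hsum x]⟩, hW x hx⟩

end Pool.Agent.Work.MP_636246_an.S
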