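import Pool.Agent.Work.MP_ccd781_gt.GR.Brouwer
import Pool.Agent.Work.MP_636246_an.S.Dyn

/-!
Periodic solutions of the recurrence that spend a long time near the fixed point.
-/

namespace Pool.Agent.Work.MP_636246_an.S

open Complex

/-- A continuous square root on a box, extended to the plane by a retraction. -/
theorem box_root {α β γ δ μ : ℝ} (h1 : α ≤ β) (h2 : γ ≤ δ) (hμ : 0 < μ)
    (h : ∀ w : ℂ, α ≤ w.re → γ ≤ w.im → 2 * μ ^ 2 ≤ ‖w‖ + w.re) :
    ∃ s : ℂ → ℂ, Continuous s ∧ ∀ w, μ ≤ (s w).re ∧ α ≤ (s w ^ 2).re ∧ (s w ^ 2).re ≤ β ∧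
      γ ≤ (s w ^ 2).im ∧ (s w ^ 2).im ≤ δ ∧
      (α ≤ w.re → w.re ≤ β → γ ≤ w.im → w.im ≤ δ → s w ^ 2 = w) := by
  let c : ℂ → ℂ := fun w => ((max α (min β w.re) : ℝ) : ℂ) + ((max γ (min δ w.im) : ℝ) : ℂ) * I
  have hc : Continuous c := by fun_prop
  have hre : ∀ w, (c w).re = max α (min β w.re) := fun w => by simp [c]
  have him : ∀ w, (c w).im = max γ (min δ w.im) := fun w => by simp [c]
  let ρ : ℂ → ℝ := fun w => Real.sqrt ((‖c w‖ + (c w).re) / 2)
  have hρc : Continuous ρ := by fun_prop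
  have h3 : ∀ w, μ ^ 2 ≤ (‖c w‖ + (c w).re) / 2 := fun w => by
    have := h (c w) (by rw [hre]; exact le_max_left _ _) (by rw [him]; exact le_max_left _ _)
    linarith
  have hρ : ∀ w, μ ≤ ρ w := fun w => Real.le_sqrt_of_sq_le (h3 w)
  have hρ2 : ∀ w, ρ w ^ 2 = (‖c w‖ + (c w).re) / 2 := fun w =>
    Real.sq_sqrt ((sq_nonneg μ).trans (h3 w))
  have hsq : ∀ w, ((ρ w : ℂ) + (((c w).im / (2 * ρ w) : ℝ) : ℂ) * I) ^ 2 = c w := by
    intro w
    have h4 : ρ w ≠ 0 := (hμ.trans_le (hρ w)).ne'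
    have h5 : ‖c w‖ ^ 2 = (c w).re * (c w).re + (c w).im * (c w).im := by
      rw [Complex.sq_norm, normSq_apply]
    have h6 : ‖c w‖ = 2 * ρ w ^ 2 - (c w).re := by linarith [hρ2 w]
    rw [h6] at h5
    apply Complex.ext
    · simp only [sq, mul_re, add_re, add_im, mul_im, ofReal_re, ofReal_im, I_re, I_im]
      field_simp
      linarith
    · simp only [sq, mul_re, add_re, add_im, mul_im, ofReal_re, ofReal_im, I_re, I_im]
      field_simp
      ring
  refine ⟨fun w => (ρ w : ℂ) + (((c w).im / (2 * ρ w) : ℝ) : ℂ) * I, ?_, fun w => ?_⟩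
  · refine (continuous_ofReal.comp hρc).add ((continuous_ofReal.comp
      (Continuous.div (by fun_prop) (by fun_prop) fun w => ?_)).mul continuous_const)
    have := hρ w
    linarith
  · simp only [hsq]
    refine ⟨by simp only [add_re, mul_re, ofReal_re, ofReal_im, I_re, I_im]; linarith [hρ w],
      ?_, ?_, ?_, ?_, fun a1 a2 a3 a4 => ?_⟩
    · rw [hre]
      exact le_max_left _ _
    · rw [hre]
      exact max_le h1 (min_le_left _ _)
    · rw [him]
      exact le_max_left _ _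
    · rw [him]
      exact max_le h2 (min_le_left _ _)
    · apply Complex.ext
      · rw [hre, min_eq_right a2, max_eq_right a1]
      · rw [him, min_eq_right a4, max_eq_right a3]

theorem norm_root {s : ℂ} (h1 : |(s ^ 2).re| ≤ 4) (h2 : |(s ^ 2).im| ≤ 4) : ‖s‖ ≤ 3 := by
  have h3 := norm_le_abs_re_add_abs_im (s ^ 2)
  rw [norm_pow] at h3
  nlinarith [norm_nonneg s]

theorem brP {μ : ℝ} (h0 : 0 < μ) (h1 : μ ≤ 1) : ∃ s : ℂ → ℂ, Continuous s ∧
    ∀ w, ‖s w‖ ≤ 3 ∧ μ ≤ (s w).re ∧ (μ ^ 2 ≤ w.re → ‖w‖ ≤ 4 → s w ^ 2 = w) := by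
  obtain ⟨s, hs, h⟩ := box_root (α := μ ^ 2) (β := 4) (γ := -4) (δ := 4) (by nlinarith)
    (by norm_num) h0 fun w h2 _ => by linarith [re_le_norm w]
  refine ⟨s, hs, fun w => ?_⟩
  obtain ⟨a1, a2, a3, a4, a5, a6⟩ := h w
  refine ⟨norm_root (abs_le.2 ⟨by nlinarith, a3⟩) (abs_le.2 ⟨a4, a5⟩), a1, fun b1 b2 => ?_⟩
  have b3 := abs_le.1 ((abs_im_le_norm w).trans b2)
  exact a6 b1 ((re_le_norm w).trans b2) b3.1 b3.2

theorem brC : ∃ s : ℂ → ℂ, Continuous s ∧ ∀ w, ‖s w‖ ≤ 3 ∧ 51 / 100 ≤ (s w).re ∧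
    (-(3 / 10) ≤ w.re → 4 / 5 ≤ w.im → ‖w‖ ≤ 4 → s w ^ 2 = w) := by
  obtain ⟨s, hs, h⟩ := box_root (α := -(3 / 10)) (β := 4) (γ := 4 / 5) (δ := 4) (μ := 51 / 100)
    (by norm_num) (by norm_num) (by norm_num) fun w h2 h3 => by
      have h5 : ‖w‖ ^ 2 = w.re * w.re + w.im * w.im := by rw [Complex.sq_norm, normSq_apply]
      by_contra h4
      nlinarith [norm_nonneg w, re_le_norm w]
  refine ⟨s, hs, fun w => ?_⟩
  obtain ⟨a1, a2, a3, a4, a5, a6⟩ := h w
  refine ⟨norm_root (abs_le.2 ⟨by linarith, a3⟩) (abs_le.2 ⟨by linarith, a5⟩), a1,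
    fun b1 b2 b3 => ?_⟩
  exact a6 b1 ((re_le_norm w).trans b3) b2 ((im_le_norm w).trans b3)

theorem brB : ∃ s : ℂ → ℂ, Continuous s ∧ ∀ w, ‖s w‖ ≤ 3 ∧ 83 / 100 ≤ (s w).im ∧
    |(s w).re| ≤ 1 / 25 ∧ (‖w + 3 / 4‖ ≤ 1 / 20 → s w ^ 2 = w) := by
  obtain ⟨s, hs, h⟩ := box_root (α := 7 / 10) (β := 4 / 5) (γ := -(1 / 20)) (δ := 1 / 20)
    (μ := 83 / 100) (by norm_num) (by norm_num) (by norm_num)
    fun w h2 _ => by linarith [re_le_norm w]
  refine ⟨fun w => I * s (-w), by fun_prop, fun w => ?_⟩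
  obtain ⟨a1, a2, a3, a4, a5, a6⟩ := h (-w)
  refine ⟨?_, by simpa using a1, ?_, fun b1 => ?_⟩
  · rw [norm_mul, norm_I, one_mul]
    exact norm_root (abs_le.2 ⟨by linarith, by linarith⟩) (abs_le.2 ⟨by linarith, by linarith⟩)
  · have e : (s (-w) ^ 2).im = 2 * (s (-w)).re * (s (-w)).im := by
      rw [sq, mul_im]
      ring
    rw [e] at a4 a5
    have e2 : (I * s (-w)).re = -(s (-w)).im := by simp
    rw [e2, abs_le]
    constructor <;> nlinarith
  · have b2 := abs_le.1 ((abs_re_le_norm _).trans b1)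
    have b3 := abs_le.1 ((abs_im_le_norm _).trans b1)
    have e1 : (w + 3 / 4).re = w.re + 3 / 4 := by simp
    have e2 : (w + 3 / 4).im = w.im := by simp
    rw [e1] at b2
    rw [e2] at b3
    have := a6 (by rw [neg_re]; linarith [b2.2]) (by rw [neg_re]; linarith [b2.1])
      (by rw [neg_im]; linarith [b3.2]) (by rw [neg_im]; linarith [b3.1])
    rw [mul_pow, this, I_sq]
    ring

theorem gain_norm {b ε θ : ℝ} {y : ℂ} (hb0 : 0 ≤ b) (hb : b ≤ 1 / 100) (hθ0 : 0 ≤ θ) (hθ : θ ≤ 1)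
    (hε : 10 * ε ≤ θ ^ 2) (h1 : -ε ≤ y.re) (h2 : θ ≤ ‖y‖) :
    1 + b + θ ^ 2 / 4 ≤ ‖y + 1 + (b : ℂ)‖ := by
  have h3 : ‖y + 1 + (b : ℂ)‖ ^ 2 = ‖y‖ ^ 2 + 2 * (1 + b) * y.re + (1 + b) ^ 2 := by
    rw [Complex.sq_norm, Complex.sq_norm, normSq_apply, normSq_apply]
    simp
    ring
  have h4 : θ ^ 2 ≤ ‖y‖ ^ 2 := pow_le_pow_left₀ hθ0 h2 2
  have h5 : θ ^ 2 ≤ 1 := by nlinarith
  have h6 : -(θ ^ 2 / 10) ≤ y.re := by linarith
  have h7 := mul_le_mul_of_nonneg_left h6 (show 0 ≤ 2 * (1 + b) by linarith)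
  refine le_of_sq_le_sq ?_ (norm_nonneg _)
  nlinarith [sq_nonneg θ]

theorem shrink_one {D : ℕ → ℝ} {θ l : ℝ} (hl : 0 ≤ l) (hl1 : l ≤ 1) (hθ : 0 ≤ θ) {q : ℕ} (hD : D q ≤ 4)
    (h : ∀ j, 1 ≤ j → j < q → D j ≤ θ ∨ D j ≤ l * D (j + 1)) (m j : ℕ) (hj : 1 ≤ j)
    (hm : j + m = q) : D j ≤ max θ (4 * l ^ m) := by
  induction m generalizing j with
  | zero =>
    rw [add_zero] at hm
    rw [hm]
    exact le_max_of_le_right (by simpa using hD)
  | succ m ih =>
    rcases h j hj (by omega) with h1 | h1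
    · exact le_max_of_le_left h1
    · have h2 := mul_le_mul_of_nonneg_left (ih (j + 1) (by omega) (by omega)) hl
      rw [mul_max_of_nonneg _ _ hl] at h2
      refine (h1.trans h2).trans (max_le_max (mul_le_of_le_one_left hθ hl1) (le_of_eq ?_))
      ring

theorem shrink_two {D : ℕ → ℝ} {θ l : ℝ} (hl : 0 ≤ l) (hl1 : l ≤ 1) (hθ : 0 ≤ θ) {p q : ℕ}
    (hD : ∀ j, D j ≤ 4)
    (h : ∀ j, p ≤ j → j + 1 < q → D (j + 1) ≤ θ ∨ D (j + 1) ≤ l * max (D (j + 2)) (D j)) (m j : ℕ)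
    (h1 : p + m ≤ j) (h2 : j + m ≤ q) : D j ≤ max θ (4 * l ^ m) := by
  induction m generalizing j with
  | zero => exact le_max_of_le_right (by simpa using hD j)
  | succ m ih =>
    obtain ⟨j, rfl⟩ : ∃ j', j = j' + 1 := ⟨j - 1, by omega⟩
    rcases h j (by omega) (by omega) with h3 | h3
    · exact le_max_of_le_left h3
    · have h4 := mul_le_mul_of_nonneg_left
        (max_le (ih (j + 2) (by omega) (by omega)) (ih j (by omega) (by omega))) hl
      rw [mul_max_of_nonneg θ _ hl] at h4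
      refine (h3.trans h4).trans (max_le_max (mul_le_of_le_one_left hθ hl1) (le_of_eq ?_))
      ring

/-- A periodic solution with one excursion, in the centred coordinate. -/
theorem exists_cycle {b : ℝ} (hb0 : 0 < b) (hb : b ≤ 1 / 10 ^ 9) : ∃ N : ℕ, ∀ n, N ≤ n →
    ∃ y : ℕ → ℂ, (∀ j, y (j + n) = y j) ∧
      (∀ j, y (j + 2) = y (j + 1) ^ 2 + (1 + b) * y (j + 1) - b * y j) ∧ (∀ j, ‖y j‖ ≤ 4) ∧
      (∀ j, 1 ≤ j → j + 2 ≤ n → -(16 * b * (1 / 2) ^ j) ≤ (y j).re) ∧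
      (∀ j, j < n → 1 + b - 32 * b * (1 / 2) ^ j ≤ ‖2 * y j + 1 + (b : ℂ)‖) ∧
      ∀ j, j + 1 = n → 8 / 5 ≤ ‖2 * y j + 1 + (b : ℂ)‖ := by
  obtain ⟨N, hN⟩ := exists_pow_lt_of_lt_one (show (0 : ℝ) < 1 / 200 by norm_num)
    (show (20000 / 20001 : ℝ) < 1 by norm_num)
  refine ⟨N + 5, fun n hn => ?_⟩
  obtain ⟨k, rfl⟩ : ∃ k, n = k + 3 := ⟨n - 3, by omega⟩
  set r : ℝ := (1 + b) / 2 with hr
  set ε : ℕ → ℝ := fun v => 16 * b * (1 / 2) ^ v with hε
  have hε0 : ∀ v, 0 ≤ ε v := fun v => by positivity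
  have hε1 : ∀ v, ε v ≤ 16 * b := fun v =>
    mul_le_of_le_one_right (by positivity) (pow_le_one₀ (by norm_num) (by norm_num))
  have hεs : ∀ v, ε (v + 1) = ε v / 2 := fun v => by
    simp only [hε]
    ring
  choose sP hPc hP using fun v : ℕ => brP (μ := r - ε v) (by linarith [hε1 v]) (by linarith [hε0 v])
  obtain ⟨sC, hCc, hC⟩ := brC
  obtain ⟨sB, hBc, hB⟩ := brB
  let br : ℕ → ℂ → ℂ := fun v w =>
    if v = 0 then -sP 0 w else if v = k + 2 then sB w else if v = k + 1 then sC w else sP v w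
  have hbc : ∀ v, Continuous (br v) := by
    intro v
    simp only [br]
    split_ifs
    exacts [(hPc 0).neg, hBc, hCc, hPc v]
  have hb3 : ∀ v w, ‖br v w‖ ≤ 3 := by
    intro v w
    simp only [br]
    split_ifs
    exacts [(norm_neg _).trans_le (hP 0 w).1, (hB w).1, (hC w).1, (hP v w).1]
  obtain ⟨Y, hY⟩ := Pool.Agent.RibGR.brouwer
    (fun (Y : ZMod (k + 3) → ℂ) j => br j.val (Y (j + 1) + b * Y (j - 1) - r ^ 2))
    (continuous_pi fun j => (hbc _).comp (by fun_prop)) 3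
    fun Y => (pi_norm_le_iff_of_nonneg (by norm_num)).2 fun j => hb3 _ _
  set Z : ℕ → ℂ := fun j => Y j with hZ
  have hper : ∀ j, Z (j + (k + 3)) = Z j := fun j => by simp only [hZ, Nat.cast_add j, ZMod.natCast_self, add_zero]
  set W : ℕ → ℂ := fun j => Z (j + 2) + b * Z j - r ^ 2 with hW
  have hfix : ∀ j, Z (j + 1) = br ((j + 1) % (k + 3)) (W j) := by
    intro j
    have := congrFun hY ((j + 1 : ℕ) : ZMod (k + 3))
    rw [ZMod.val_natCast] at this
    simp only [hZ, hW]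
    rw [← this]
    congr 2 <;> push_cast <;> ring_nf
  have hZ3 : ∀ j, ‖Z j‖ ≤ 3 := fun j => by
    simp only [hZ]
    rw [← congrFun hY (j : ZMod (k + 3))]
    exact hb3 _ _
  have hW4 : ∀ j, ‖W j‖ ≤ 4 := by
    intro j
    refine (norm_sub_le _ _).trans ?_
    have h1 := norm_add_le (Z (j + 2)) (b * Z j)
    rw [norm_mul, nb hb0.le] at h1
    rw [norm_pow, nb (by linarith)]
    nlinarith [hZ3 j, hZ3 (j + 2)]
  have hWre : ∀ j, (W j).re = (Z (j + 2)).re + b * (Z j).re - r ^ 2 := fun j => by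
    simp only [hW, sub_re, add_re, re_ofReal_mul, ← ofReal_pow, ofReal_re]
  have hWim : ∀ j, (W j).im = (Z (j + 2)).im + b * (Z j).im := fun j => by
    simp only [hW, sub_im, add_im, im_ofReal_mul, ← ofReal_pow, ofReal_im, sub_zero]
  have hre3 : ∀ j, -(3 * b) ≤ b * (Z j).re := fun j => by
    have := (abs_le.1 ((abs_re_le_norm _).trans (hZ3 j))).1
    nlinarith
  have him3 : ∀ j, -(3 * b) ≤ b * (Z j).im := fun j => by
    have := (abs_le.1 ((abs_im_le_norm _).trans (hZ3 j))).1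
    nlinarith
  have fP : ∀ j, j + 1 ≤ k → Z (j + 1) = sP (j + 1) (W j) := fun j hj => by
    rw [hfix, Nat.mod_eq_of_lt (by omega)]
    simp only [br]
    rw [if_neg (by omega), if_neg (by omega), if_neg (by omega)]
  have fC : Z (k + 1) = sC (W k) := by
    rw [hfix, Nat.mod_eq_of_lt (by omega)]
    simp only [br]
    rw [if_neg (by omega), if_neg (by omega), if_pos trivial]
  have fB : Z (k + 2) = sB (W (k + 1)) := by
    rw [hfix (k + 1), Nat.mod_eq_of_lt (by omega)]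
    simp only [br]
    rw [if_neg (by omega), if_pos trivial]
  have fM : Z (k + 3) = -sP 0 (W (k + 2)) := by
    rw [hfix (k + 2), show k + 2 + 1 = k + 3 from rfl, Nat.mod_self]
    simp only [br]
    rw [if_pos trivial]
  have hZ0 : Z (k + 3) = Z 0 := by simpa using hper 0
  have hZ1 : Z (k + 2 + 2) = Z 1 := by rw [← hper 1]; congr 1; ring
  have hre : ∀ j, 1 ≤ j → j ≤ k + 1 → r - ε j ≤ (Z j).re := by
    intro j h1 h2
    obtain ⟨j, rfl⟩ : ∃ j', j = j' + 1 := ⟨j - 1, by omega⟩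
    rcases (show j + 1 ≤ k ∨ j = k by omega) with h3 | rfl
    · rw [fP j h3]
      exact (hP _ _).2.1
    · rw [fC]
      linarith [(hC (W j)).2.1, hε0 (j + 1)]
  have hre0 : (Z 0).re ≤ -(r - ε 0) := by
    rw [← hZ0, fM, neg_re]
    linarith [(hP 0 (W (k + 2))).2.1]
  have hε00 : ε 0 = 16 * b := by simp [hε]
  have sP' : ∀ j, j + 1 ≤ k → Z (j + 1) ^ 2 = W j := by
    intro j hj
    rw [fP j hj]
    refine (hP _ _).2.2 ?_ (hW4 j)
    rw [hWre]
    have h1 := hre (j + 2) (by omega) (by omega)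
    rw [hεs (j + 1)] at h1
    have h2 := hε1 (j + 1)
    have h3 := hε0 (j + 1)
    rcases Nat.eq_zero_or_pos j with rfl | h4
    · have h5 := hre3 0
      have h6 : ε (0 + 1) = 8 * b := by rw [hεs, hε00]; ring
      rw [h6] at h1 ⊢
      rw [hr] at h1 ⊢
      nlinarith
    · have h5 := mul_le_mul_of_nonneg_left (hre j h4 (by omega)) hb0.le
      have h6 : ε j = 2 * ε (j + 1) := by rw [hεs]; ring
      rw [h6] at h5
      rw [hr] at h1 h5 ⊢
      nlinarith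
  have hBim : 83 / 100 ≤ (Z (k + 2)).im := by rw [fB]; exact (hB _).2.1
  have hBre : |(Z (k + 2)).re| ≤ 1 / 25 := by rw [fB]; exact (hB _).2.2.1
  have sC' : Z (k + 1) ^ 2 = W k := by
    rw [fC]
    refine (hC _).2.2 ?_ ?_ (hW4 k)
    · rw [hWre, hr]
      nlinarith [hre3 k, (abs_le.1 hBre).1]
    · rw [hWim]
      linarith [him3 k]
  have sM' : Z (k + 3) ^ 2 = W (k + 2) := by
    rw [fM, neg_sq]
    refine (hP _ _).2.2 ?_ (hW4 _)
    rw [hWre, hZ1, hε00]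
    have h1 := hre 1 le_rfl (by omega)
    have h6 : ε 1 = 8 * b := by rw [hεs 0, hε00]; ring
    rw [h6, hr] at h1
    rw [hr]
    nlinarith [hre3 (k + 2)]
  have hy4 : ∀ j, ‖Z j - r‖ ≤ 4 := fun j => by
    have := norm_sub_le (Z j) r
    rw [nb (by linarith)] at this
    linarith [hZ3 j]
  have hrc : (r : ℂ) = (1 + b) / 2 := by rw [hr]; push_cast; ring
  have hprod : ∀ j, Z (j + 1) ^ 2 = W j → ‖Z (j + 1) - r‖ * ‖Z (j + 1) - r + 1 + (b : ℂ)‖ ≤
      ‖Z (j + 2) - r‖ + 4 * b := by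
    intro j hj
    have e : (Z (j + 1) - r) * (Z (j + 1) - r + 1 + (b : ℂ)) = (Z (j + 2) - r) + b * (Z j - r) := by
      simp only [hW] at hj
      rw [hrc] at hj ⊢
      linear_combination hj
    rw [← norm_mul, e]
    refine (norm_add_le _ _).trans ?_
    rw [norm_mul, nb hb0.le]
    nlinarith [hy4 j]
  have hsmall : ‖Z 1 - r‖ ≤ 1 / 50 := by
    have h1 := shrink_one (D := fun j => ‖Z j - r‖) (θ := 1 / 50) (l := 20000 / 20001) (by norm_num)
      (by norm_num) (by norm_num) (hy4 (k + 1)) (fun j h1 h2 => by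
        obtain ⟨j, rfl⟩ : ∃ j', j = j' + 1 := ⟨j - 1, by omega⟩
        rcases le_total ‖Z (j + 1) - r‖ (1 / 50) with h3 | h3
        · exact Or.inl h3
        · refine Or.inr ?_
          have h4 := gain_norm (ε := 16 * b) hb0.le (by linarith) (by norm_num) (by norm_num)
            (by linarith) (by
              rw [sub_re, ofReal_re]
              linarith [hre (j + 1) h1 (by omega), hε1 (j + 1)]) h3
          have h5 := hprod j (sP' j (by omega))
          have h6 := mul_le_mul_of_nonneg_left h4 (norm_nonneg (Z (j + 1) - r))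
          change _ ≤ _ * ‖Z (j + 2) - r‖
          nlinarith [mul_nonneg hb0.le (norm_nonneg (Z (j + 1) - r))]) k 1 le_rfl (by ring)
    refine h1.trans (max_le le_rfl ?_)
    have h2 : (20000 / 20001 : ℝ) ^ k ≤ (20000 / 20001) ^ N :=
      pow_le_pow_of_le_one (by norm_num) (by norm_num) (by omega)
    linarith
  have sB' : Z (k + 2) ^ 2 = W (k + 1) := by
    rw [fB]
    refine (hB _).2.2.2 ?_
    have h1 := hprod (k + 2) sM'
    rw [hZ1, show k + 2 + 1 = k + 3 from rfl, hZ0] at h1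
    have h2 : 9 / 10 ≤ ‖Z 0 - r‖ := by
      have := re_le_norm (-(Z 0 - r))
      rw [norm_neg, neg_re, sub_re, ofReal_re] at this
      linarith
    have h3 : ‖Z 0 - r + 1 + (b : ℂ)‖ ≤ 1 / 25 := by
      nlinarith [norm_nonneg (Z 0 - r + 1 + (b : ℂ))]
    have e : W (k + 1) + 3 / 4 =
        (Z 0 - r + 1 + (b : ℂ)) + b * Z (k + 1) - ((b + b ^ 2 / 4 : ℝ) : ℂ) := by
      simp only [hW]
      rw [show k + 1 + 2 = k + 3 from rfl, hZ0, hrc]
      push_cast
      ring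
    rw [e]
    refine (norm_sub_le _ _).trans ?_
    have h4 := norm_add_le (Z 0 - r + 1 + (b : ℂ)) (b * Z (k + 1))
    rw [norm_mul, nb hb0.le] at h4
    rw [nb (by positivity)]
    nlinarith [hZ3 (k + 1)]
  have hall : ∀ j, Z (j + 1) ^ 2 = W j := by
    intro j
    induction j using Nat.strong_induction_on with
    | _ j ih =>
      rcases (show j + 1 ≤ k ∨ j = k ∨ j = k + 1 ∨ j = k + 2 ∨ k + 3 ≤ j by omega) with
        h | rfl | rfl | rfl | h
      exacts [sP' j h, sC', sB', sM', by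
        obtain ⟨j, rfl⟩ : ∃ j', j = j' + (k + 3) := ⟨j - (k + 3), by omega⟩
        have := ih j (by omega)
        simp only [hW] at this ⊢
        rw [show j + (k + 3) + 1 = j + 1 + (k + 3) by ring,
          show j + (k + 3) + 2 = j + 2 + (k + 3) by ring, hper, hper, hper]
        exact this]
  have h2Z : ∀ j, ‖2 * (Z j - r) + 1 + (b : ℂ)‖ = 2 * ‖Z j‖ := fun j => by
    rw [show 2 * (Z j - r) + 1 + (b : ℂ) = 2 * Z j by rw [hrc]; ring, norm_mul, Complex.norm_two]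
  refine ⟨fun j => Z j - r, fun j => by simp only [hper], fun j => ?_, hy4, fun j h1 h2 => ?_,
    fun j hj => ?_, fun j hj => ?_⟩
  · have := hall j
    simp only [hW] at this
    rw [hrc] at this ⊢
    linear_combination -this
  · rw [sub_re, ofReal_re]
    linarith [hre j h1 (by omega)]
  · rw [h2Z]
    have h0 := hε0 j
    have h1 : 32 * b * (1 / 2) ^ j = 2 * ε j := by simp only [hε]; ring
    rw [h1]
    rcases (show j = 0 ∨ (1 ≤ j ∧ j ≤ k + 1) ∨ j = k + 2 by omega) with rfl | h | rfl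
    · have := re_le_norm (-Z 0)
      rw [norm_neg, neg_re] at this
      linarith
    · linarith [re_le_norm (Z j), hre j h.1 h.2]
    · linarith [im_le_norm (Z (k + 2))]
  · rw [h2Z, show j = k + 2 by omega]
    linarith [im_le_norm (Z (k + 2))]

end Pool.Agent.Work.MP_636246_an.S
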